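import Pool.Agent.N183.U8.Stm

/-! GS/B (helper263 for helper183): irreducible linear Lie algebras with a rank one element. -/

set_option autoImplicit false

namespace Pool.Agent.N263.GSB

open Module Pool.Agent.N183.U8

variable {U : Type} [AddCommGroup U] [Module ℂ U] [FiniteDimensional ℂ U]

/-- the basic skew maps -/
noncomputable def n (β : U →ₗ[ℂ] U →ₗ[ℂ] ℂ) (a b : U) : End ℂ U :=
  (β a).smulRight b + (β b).smulRight a

omit [FiniteDimensional ℂ U] in
theorem n_apply (β : U →ₗ[ℂ] U →ₗ[ℂ] ℂ) (a b v : U) : n β a b v = β a v • b + β b v • a := rfl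

omit [FiniteDimensional ℂ U] in
theorem n_comm (β : U →ₗ[ℂ] U →ₗ[ℂ] ℂ) (a b : U) : n β a b = n β b a := by
  ext v
  rw [n_apply, n_apply, add_comm]

omit [FiniteDimensional ℂ U] in
theorem n_add (β : U →ₗ[ℂ] U →ₗ[ℂ] ℂ) (a b c : U) : n β a (b + c) = n β a b + n β a c := by
  ext v
  simp only [n_apply, LinearMap.add_apply, map_add, smul_add, add_smul]
  abel

omit [FiniteDimensional ℂ U] in
theorem n_smul (β : U →ₗ[ℂ] U →ₗ[ℂ] ℂ) (t : ℂ) (a b : U) : n β a (t • b) = t • n β a b := by
  ext v
  simp only [n_apply, LinearMap.smul_apply, map_smul, smul_add, smul_smul, smul_eq_mul]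
  rw [mul_comm]

omit [FiniteDimensional ℂ U] in
theorem n_zero (β : U →ₗ[ℂ] U →ₗ[ℂ] ℂ) (a : U) : n β a 0 = 0 := by
  have h := n_smul β 0 a 0
  rwa [zero_smul, zero_smul] at h

omit [FiniteDimensional ℂ U] in
theorem n_brack (β : U →ₗ[ℂ] U →ₗ[ℂ] ℂ) {A : End ℂ U} (hA : Skw β A) (a b : U) :
    A * n β a b - n β a b * A = n β (A a) b + n β a (A b) := by
  ext v
  have h1 := hA a v
  have h2 := hA b v
  have h3 : β a (A v) = -β (A a) v := by linear_combination h1
  have h4 : β b (A v) = -β (A b) v := by linear_combination h2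
  simp only [LinearMap.sub_apply, Module.End.mul_apply, LinearMap.add_apply, n_apply, map_add, map_smul,
    h3, h4, neg_smul]
  abel

omit [FiniteDimensional ℂ U] in
theorem n_sq_add (β : U →ₗ[ℂ] U →ₗ[ℂ] ℂ) (a b : U) (t : ℂ) :
    n β (a + t • b) (a + t • b) = n β a a + (2 * t) • n β a b + (t ^ 2) • n β b b := by
  rw [n_add, n_smul, n_comm β (a + t • b) a, n_comm β (a + t • b) b, n_add, n_add, n_smul, n_smul,
    n_comm β b a]
  module

/-- the subspace of the vectors `a` with `n a b ∈ L` for a fixed `b` -/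
def PP (β : U →ₗ[ℂ] U →ₗ[ℂ] ℂ) (L : Submodule ℂ (End ℂ U)) (x : U) : Submodule ℂ U where
  carrier := {y | n β x y ∈ L}
  add_mem' := by
    intro a b ha hb
    show n β x (a + b) ∈ L
    rw [n_add]
    exact L.add_mem ha hb
  zero_mem' := by
    show n β x 0 ∈ L
    rw [n_zero]
    exact L.zero_mem
  smul_mem' := by
    intro c a ha
    show n β x (c • a) ∈ L
    rw [n_smul]
    exact L.smul_mem c ha

/-- the subspace of the vectors `a` with `n a b ∈ L` for all `b` -/
def MM (β : U →ₗ[ℂ] U →ₗ[ℂ] ℂ) (L : Submodule ℂ (End ℂ U)) : Submodule ℂ U where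
  carrier := {y | ∀ b, n β b y ∈ L}
  add_mem' := by
    intro a b ha hb c
    rw [n_add]
    exact L.add_mem (ha c) (hb c)
  zero_mem' := by
    intro b
    rw [n_zero]
    exact L.zero_mem
  smul_mem' := by
    intro c a ha b
    rw [n_smul]
    exact L.smul_mem c (ha b)

/-- adjacency -/
def Adj (β : U →ₗ[ℂ] U →ₗ[ℂ] ℂ) (L : Submodule ℂ (End ℂ U)) (x y : U) : Prop :=
  n β x x ∈ L ∧ n β y y ∈ L ∧ β x y ≠ 0

theorem B : S_B := by
  intro U _ _ _ S L β N hS1 hSL hBr hirr hβ hsk hN hrk
  -- nondegeneracy
  have hnd : ∀ u, (∀ v, β u v = 0) → u = 0 := by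
    have h1 := hirr (LinearMap.ker β) (by
      intro D hD w hw
      rw [LinearMap.mem_ker] at hw ⊢
      ext v
      have h2 := hsk D (hSL D hD) w v
      rw [hw, LinearMap.zero_apply, add_zero] at h2
      rw [h2, LinearMap.zero_apply])
    rcases h1 with h1 | h1
    · intro u hu
      have h2 : u ∈ LinearMap.ker β := by
        rw [LinearMap.mem_ker]
        ext v
        rw [hu v, LinearMap.zero_apply]
      rw [h1] at h2
      simpa using h2
    · exfalso
      exact hβ (LinearMap.ker_eq_top.1 h1)
  have hinj : Function.Injective β := by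
    rw [← LinearMap.ker_eq_bot, LinearMap.ker_eq_bot']
    intro u hu
    exact hnd u (fun v => by rw [hu, LinearMap.zero_apply])
  have hsurj : Function.Surjective β := by
    have h1 : finrank ℂ U = finrank ℂ (Dual ℂ U) := Subspace.dual_finrank_eq.symm
    exact (LinearMap.injective_iff_surjective_of_finrank_eq_finrank h1).1 hinj
  let e : U ≃ₗ[ℂ] Dual ℂ U := LinearEquiv.ofBijective β ⟨hinj, hsurj⟩
  have he : ∀ f : Dual ℂ U, β (e.symm f) = f := fun f => e.apply_symm_apply f
  -- symmetry
  obtain ⟨T, hT⟩ : ∃ T : End ℂ U, ∀ u v, β (T u) v = β v u := by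
    refine ⟨e.symm.toLinearMap ∘ₗ β.flip, fun u v => ?_⟩
    rw [LinearMap.comp_apply, LinearEquiv.coe_coe, he, LinearMap.flip_apply]
  have hTD : ∀ D ∈ S, ∀ u, T (D u) = D (T u) := by
    intro D hD u
    rw [← sub_eq_zero]
    refine hnd _ fun v => ?_
    rw [map_sub, LinearMap.sub_apply, hT]
    have h1 := hsk D (hSL D hD) v u
    have h2 := hsk D (hSL D hD) (T u) v
    rw [hT] at h2
    linear_combination h1 - h2
  obtain ⟨x, hx0, hNx⟩ : ∃ x : U, x ≠ 0 ∧ ∀ u, ∃ c : ℂ, c • x = N u := by
    obtain ⟨w, hw0, hw⟩ := finrank_eq_one_iff'.1 hrk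
    refine ⟨w.1, fun h => hw0 (Subtype.ext h), fun u => ?_⟩
    obtain ⟨c, hc⟩ := hw ⟨N u, LinearMap.mem_range_self N u⟩
    exact ⟨c, congrArg Subtype.val hc⟩
  have hNt : Nontrivial U := ⟨x, 0, hx0⟩
  obtain ⟨c, hc⟩ := Module.End.exists_eigenvalue T
  have hTc : ∀ u, T u = c • u := by
    have h1 := hirr (T.eigenspace c) (by
      intro D hD w hw
      rw [Module.End.mem_eigenspace_iff] at hw ⊢
      rw [hTD D hD, hw, map_smul])
    rcases h1 with h1 | h1
    · exact absurd h1 hc
    · intro u
      have h2 : u ∈ T.eigenspace c := by rw [h1]; trivial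
      exact Module.End.mem_eigenspace_iff.1 h2
  have hsym : ∀ u v, β v u = c * β u v := by
    intro u v
    rw [← hT u v, hTc, map_smul, LinearMap.smul_apply, smul_eq_mul]
  -- the element of rank one
  obtain ⟨f, hf⟩ : ∃ f : Dual ℂ U, f x = 1 := Module.Projective.exists_dual_eq_one ℂ hx0
  have hNf : ∀ u, N u = f (N u) • x := by
    intro u
    obtain ⟨c, hc⟩ := hNx u
    rw [← hc, map_smul, hf, smul_eq_mul, mul_one]
  have hN0 : ∃ u, f (N u) ≠ 0 := by
    by_contra hcon
    push Not at hcon
    have h1 : N = 0 := by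
      ext u
      rw [hNf u, hcon u, zero_smul, LinearMap.zero_apply]
    rw [h1, LinearMap.range_zero, finrank_bot] at hrk
    exact absurd hrk (by norm_num)
  have hx1 : ∃ v, β x v ≠ 0 := by
    by_contra hcon
    push Not at hcon
    exact hx0 (hnd x hcon)
  have hNs : ∀ u v, f (N u) * β x v + f (N v) * β u x = 0 := by
    intro u v
    have h1 := hsk N hN u v
    rw [hNf u, hNf v, map_smul, LinearMap.smul_apply, map_smul, smul_eq_mul, smul_eq_mul] at h1
    exact h1
  -- the form is alternating
  have hc2 : c * c = 1 := by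
    obtain ⟨v, hv⟩ := hx1
    have h1 := hsym x v
    have h2 := hsym v x
    rw [h1] at h2
    have h3 : (c * c - 1) * β x v = 0 := by linear_combination -h2
    rcases mul_eq_zero.1 h3 with h4 | h4
    · linear_combination h4
    · exact absurd h4 hv
  have hcm : c = -1 := by
    have h1 : (c - 1) * (c + 1) = 0 := by linear_combination hc2
    rcases mul_eq_zero.1 h1 with h2 | h2
    · exfalso
      have h3 : c = 1 := by linear_combination h2
      have h4 : ∀ u, f (N u) * β x u = 0 := by
        intro u
        have h5 := hNs u u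
        rw [hsym x u, h3, one_mul] at h5
        linear_combination (1 / 2) * h5
      obtain ⟨u1, hu1⟩ := hN0
      obtain ⟨u2, hu2⟩ := hx1
      have h5 : β x u1 = 0 := (mul_eq_zero.1 (h4 u1)).resolve_left hu1
      have h6 : f (N u2) = 0 := (mul_eq_zero.1 (h4 u2)).resolve_right hu2
      have h7 := h4 (u1 + u2)
      rw [map_add, map_add, map_add, h5, h6, add_zero, zero_add] at h7
      exact (mul_ne_zero hu1 hu2) h7
    · linear_combination h2
  have hanti : ∀ u v, β v u = -β u v := by
    intro u v
    rw [hsym u v, hcm]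
    ring
  have halt : ∀ u, β u u = 0 := by
    intro u
    have h1 := hanti u u
    linear_combination (1 / 2) * h1
  refine ⟨halt, hnd, ?_⟩
  -- the square of `x`
  have hxx : n β x x ∈ L := by
    obtain ⟨v0, hv0⟩ := hx1
    have h1 : ∀ u, f (N u) = (f (N v0) / β x v0) * β x u := by
      intro u
      have h2 := hNs u v0
      rw [hanti x u] at h2
      field_simp
      linear_combination h2
    have hk : f (N v0) / β x v0 ≠ 0 := by
      obtain ⟨u1, hu1⟩ := hN0
      intro h2
      rw [h1 u1, h2, zero_mul] at hu1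
      exact hu1 rfl
    have h3 : n β x x = (2 / (f (N v0) / β x v0)) • N := by
      ext u
      rw [n_apply, LinearMap.smul_apply, hNf u, h1 u, smul_smul, ← add_smul]
      congr 1
      rw [← mul_assoc, div_mul_cancel₀ _ hk, two_mul]
    rw [h3]
    exact L.smul_mem _ hN
  -- the cone
  have hX1 : ∀ z, n β z z ∈ L → ∀ D ∈ S, n β z (D z) ∈ L ∧ n β (D z) (D z) ∈ L := by
    intro z hz D hD
    have hDs := hsk D (hSL D hD)
    have h1 := hBr D (hSL D hD) _ hz
    rw [n_brack β hDs, n_comm β (D z) z, ← two_smul ℂ] at h1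
    have h2 : n β z (D z) ∈ L := by
      have h3 := L.smul_mem (1 / 2 : ℂ) h1
      rwa [smul_smul, show (1 / 2 : ℂ) * 2 = 1 by norm_num, one_smul] at h3
    refine ⟨h2, ?_⟩
    have h3 := hBr D (hSL D hD) _ h2
    rw [n_brack β hDs] at h3
    have h4 : D (D z) = z := by
      have h5 := congrArg (fun F : End ℂ U => F z) (hS1 D hD)
      simpa using h5
    rw [h4] at h3
    have h5 := L.sub_mem h3 hz
    rwa [add_sub_cancel_right] at h5
  have hX2 : ∀ z, n β z z ∈ L → ∀ D ∈ S, ∀ t : ℂ, n β (z + t • D z) (z + t • D z) ∈ L := by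
    intro z hz D hD t
    obtain ⟨h1, h2⟩ := hX1 z hz D hD
    rw [n_sq_add]
    exact L.add_mem (L.add_mem hz (L.smul_mem _ h1)) (L.smul_mem _ h2)
  have hX3 : ∀ y z, n β y y ∈ L → n β z z ∈ L → β y z ≠ 0 → n β y z ∈ L := by
    intro y z hy hz hyz
    have h1 := hBr _ hy _ hz
    rw [n_brack β (hsk _ hy), n_comm β (n β y y z) z, ← two_smul ℂ, n_apply, ← two_smul ℂ, smul_smul,
      n_smul, smul_smul, n_comm β z y] at h1
    have h2 := L.smul_mem (2 * (2 * β y z))⁻¹ h1
    rwa [smul_smul, inv_mul_cancel₀ (by simp [hyz]), one_smul] at h2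
  have hsp : Submodule.span ℂ {z | n β z z ∈ L} = ⊤ := by
    have h1 := hirr (Submodule.span ℂ {z | n β z z ∈ L}) (by
      intro D hD w hw
      induction hw using Submodule.span_induction with
      | mem z hz => exact Submodule.subset_span (hX1 z hz D hD).2
      | zero => rw [map_zero]; exact Submodule.zero_mem _
      | add a b _ _ ha hb => rw [map_add]; exact Submodule.add_mem _ ha hb
      | smul c a _ ha => rw [map_smul]; exact Submodule.smul_mem _ c ha)
    rcases h1 with h1 | h1
    · exfalso
      have h2 : x ∈ Submodule.span ℂ {z | n β z z ∈ L} := Submodule.subset_span hxx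
      rw [h1] at h2
      exact hx0 (by simpa using h2)
    · exact h1
  have hnb : ∀ y, y ≠ 0 → ∃ z, n β z z ∈ L ∧ β y z ≠ 0 := by
    intro y hy
    by_contra hcon
    push Not at hcon
    apply hy
    refine hnd y fun v => ?_
    have h1 : v ∈ Submodule.span ℂ {z | n β z z ∈ L} := by rw [hsp]; trivial
    induction h1 using Submodule.span_induction with
    | mem z hz => exact hcon z hz
    | zero => rw [map_zero]
    | add a b _ _ ha hb => rw [map_add, ha, hb, add_zero]
    | smul c a _ ha => rw [map_smul, ha, smul_zero]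
  -- the component of `x`
  have hcomp0 : ∀ y, Relation.ReflTransGen (Adj β L) x y → n β y y ∈ L ∧ y ≠ 0 := by
    intro y hy
    induction hy with
    | refl => exact ⟨hxx, hx0⟩
    | tail _ h _ =>
      refine ⟨h.2.1, ?_⟩
      rintro rfl
      exact h.2.2 (map_zero _)
  have hspc : Submodule.span ℂ {y | Relation.ReflTransGen (Adj β L) x y} = ⊤ := by
    have h1 := hirr (Submodule.span ℂ {y | Relation.ReflTransGen (Adj β L) x y}) (by
      intro D hD w hw
      induction hw using Submodule.span_induction with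
      | mem y hy =>
        obtain ⟨hyy, hy0⟩ := hcomp0 y hy
        obtain ⟨z, hz, hyz⟩ := hnb y hy0
        have hyz' : Relation.ReflTransGen (Adj β L) x z := hy.tail ⟨hyy, hz, hyz⟩
        have hzy : β z y ≠ 0 := by rw [hanti y z]; exact neg_ne_zero.2 hyz
        have key : ∀ t : ℂ, t ≠ 0 → β z (y + t • D y) ≠ 0 →
            D y ∈ Submodule.span ℂ {y | Relation.ReflTransGen (Adj β L) x y} := by
          intro t ht h2
          have h3 : Relation.ReflTransGen (Adj β L) x (y + t • D y) :=
            hyz'.tail ⟨hz, hX2 y hyy D hD t, h2⟩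
          have h4 := Submodule.sub_mem (Submodule.span ℂ {y | Relation.ReflTransGen (Adj β L) x y})
            (Submodule.subset_span h3) (Submodule.subset_span hy)
          rw [add_sub_cancel_left] at h4
          have h5 := Submodule.smul_mem _ t⁻¹ h4
          rwa [smul_smul, inv_mul_cancel₀ ht, one_smul] at h5
        by_cases h2 : β z (y + (1 : ℂ) • D y) = 0
        · refine key 2 (by norm_num) ?_
          intro h3
          rw [map_add, map_smul, smul_eq_mul] at h2 h3
          apply hzy
          linear_combination 2 * h2 - h3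
        · exact key 1 one_ne_zero h2
      | zero => rw [map_zero]; exact Submodule.zero_mem _
      | add a b _ _ ha hb => rw [map_add]; exact Submodule.add_mem _ ha hb
      | smul c a _ ha => rw [map_smul]; exact Submodule.smul_mem _ c ha)
    rcases h1 with h1 | h1
    · exfalso
      have h2 : x ∈ Submodule.span ℂ {y | Relation.ReflTransGen (Adj β L) x y} :=
        Submodule.subset_span Relation.ReflTransGen.refl
      rw [h1] at h2
      exact hx0 (by simpa using h2)
    · exact h1
  have hPc : ∀ y, Relation.ReflTransGen (Adj β L) x y → n β x y ∈ L := by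
    intro y hy
    induction hy with
    | refl => exact hxx
    | @tail y z _ h ih =>
      by_cases h1 : β x z = 0
      · have h2 : n β (x + (1 : ℂ) • y) (x + (1 : ℂ) • y) ∈ L := by
          rw [n_sq_add]
          exact L.add_mem (L.add_mem hxx (L.smul_mem _ ih)) (L.smul_mem _ h.1)
        have h3 : β (x + (1 : ℂ) • y) z ≠ 0 := by
          rw [one_smul, map_add, LinearMap.add_apply, h1, zero_add]
          exact h.2.2
        have h4 := hX3 _ _ h2 h.2.1 h3
        have h5 := hX3 _ _ h.1 h.2.1 h.2.2
        rw [one_smul, n_comm β (x + y) z, n_add, n_comm β z x, n_comm β z y] at h4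
        have h6 := L.sub_mem h4 h5
        rwa [add_sub_cancel_right] at h6
      · exact hX3 _ _ hxx h.2.1 h1
  have hPx : ∀ y, n β x y ∈ L := by
    intro y
    have h1 : Submodule.span ℂ {y | Relation.ReflTransGen (Adj β L) x y} ≤ PP β L x :=
      Submodule.span_le.2 (fun y hy => hPc y hy)
    rw [hspc] at h1
    exact h1 (Submodule.mem_top (x := y))
  have hM : MM β L = ⊤ := by
    have h1 := hirr (MM β L) (by
      intro D hD w hw b
      have h2 := hBr D (hSL D hD) _ (hw b)
      rw [n_brack β (hsk D (hSL D hD))] at h2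
      have h3 := L.sub_mem h2 (hw (D b))
      rwa [add_sub_cancel_left] at h3)
    rcases h1 with h1 | h1
    · exfalso
      have h2 : x ∈ MM β L := fun b => by rw [n_comm]; exact hPx b
      rw [h1] at h2
      exact hx0 (by simpa using h2)
    · exact h1
  have hall : ∀ a b, n β a b ∈ L := by
    intro a b
    have h1 : b ∈ MM β L := by rw [hM]; trivial
    exact h1 a
  -- all the skew maps
  intro A hA
  let bs := Module.finBasis ℂ U
  have h1 : A = (1 / 2 : ℂ) • ∑ i, n β (e.symm (bs.coord i)) (A (bs i)) := by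
    have h2 : ∀ v, ∑ i, β (bs i) v • e.symm (bs.coord i) = -v := by
      intro v
      rw [← sub_eq_zero]
      refine hnd _ fun u => ?_
      rw [map_sub, LinearMap.sub_apply, map_sum, LinearMap.sum_apply]
      have h3 : ∀ i ∈ Finset.univ, β (β (bs i) v • e.symm (bs.coord i)) u = bs.repr u i * β (bs i) v := by
        intro i _
        rw [map_smul, LinearMap.smul_apply, he, smul_eq_mul, mul_comm]
        rfl
      rw [Finset.sum_congr rfl h3]
      have h4 : β u v = ∑ i, bs.repr u i * β (bs i) v := by
        conv_lhs => rw [← bs.sum_repr u]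
        rw [map_sum, LinearMap.sum_apply]
        exact Finset.sum_congr rfl fun i _ => by rw [map_smul, LinearMap.smul_apply, smul_eq_mul]
      rw [← h4, map_neg, LinearMap.neg_apply, hanti u v]
      ring
    ext v
    rw [LinearMap.smul_apply, LinearMap.sum_apply]
    have h3 : ∀ i ∈ Finset.univ, n β (e.symm (bs.coord i)) (A (bs i)) v =
        bs.repr v i • A (bs i) - β (bs i) (A v) • e.symm (bs.coord i) := by
      intro i _
      rw [n_apply, he]
      have h4 : β (A (bs i)) v = -β (bs i) (A v) := by
        have h5 := hA (bs i) v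
        linear_combination h5
      rw [h4, neg_smul, ← sub_eq_add_neg]
      rfl
    rw [Finset.sum_congr rfl h3, Finset.sum_sub_distrib, h2 (A v)]
    have h4 : ∑ i, bs.repr v i • A (bs i) = A v := by
      conv_rhs => rw [← bs.sum_repr v]
      rw [map_sum]
      exact Finset.sum_congr rfl fun i _ => by rw [map_smul]
    rw [h4]
    module
  rw [h1]
  exact L.smul_mem _ (L.sum_mem fun i _ => hall _ _)

end Pool.Agent.N263.GSB
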