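import Pool.Agent.N404.EX.Stm
import Pool.Agent.H931R2.Haxell

/-!
Project EX (helper404), part SEP: one vertex on every odd circuit, pairwise far apart (Haxell).
-/

set_option autoImplicit false

namespace Pool.Agent.N263.EX_SEP

open Finset Classical Pool.Agent.N404.EX

variable {V : Type} [Fintype V]

/-- the vertices which are joined to `u` by a walk of length at most `r` -/
noncomputable def ball (G : SimpleGraph V) (r : ℕ) (u : V) : Finset V :=
  univ.filter (fun v => ∃ p : G.Walk u v, p.length ≤ r)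

theorem mem_ball {G : SimpleGraph V} {r : ℕ} {u v : V} :
    v ∈ ball G r u ↔ ∃ p : G.Walk u v, p.length ≤ r := by
  unfold ball
  rw [mem_filter]
  exact ⟨fun h => h.2, fun h => ⟨mem_univ _, h⟩⟩

theorem ball_card (G : SimpleGraph V) (hG : ∀ v, G.degree v = 3) (r : ℕ) :
    ∀ u, (ball G r u).card ≤ 4 ^ r := by
  induction r with
  | zero =>
    intro u
    have h1 : ball G 0 u ⊆ {u} := by
      intro v hv
      obtain ⟨p, hp⟩ := mem_ball.mp hv
      rw [mem_singleton]
      exact (SimpleGraph.Walk.eq_of_length_eq_zero (Nat.le_zero.mp hp)).symm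
    simpa using card_le_card h1
  | succ r ih =>
    intro u
    have h1 : ball G (r + 1) u ⊆ insert u ((G.neighborFinset u).biUnion (ball G r)) := by
      intro v hv
      obtain ⟨p, hp⟩ := mem_ball.mp hv
      rw [mem_insert, mem_biUnion]
      cases p with
      | nil => exact Or.inl rfl
      | @cons _ w _ h p =>
        right
        refine ⟨w, (G.mem_neighborFinset u w).mpr h, mem_ball.mpr ⟨p, ?_⟩⟩
        rw [SimpleGraph.Walk.length_cons] at hp
        omega
    have h2 : ((G.neighborFinset u).biUnion (ball G r)).card ≤ 3 * 4 ^ r := by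
      have h3 := card_biUnion_le_card_mul (G.neighborFinset u) (ball G r) (4 ^ r)
        (fun w _ => ih w)
      have h4 : (G.neighborFinset u).card = 3 := by
        rw [SimpleGraph.card_neighborFinset_eq_degree]
        exact hG u
      rwa [h4] at h3
    have h5 := (card_le_card h1).trans (card_insert_le _ _)
    have h6 : 1 ≤ 4 ^ r := Nat.one_le_pow _ _ (by norm_num)
    rw [pow_succ]
    omega

theorem per_same {σ : Equiv.Perm V} {v w : V} (h : σ.SameCycle v w) :
    Function.minimalPeriod σ v = Function.minimalPeriod σ w := by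
  obtain ⟨i, hi⟩ := h.exists_nat_pow_eq
  rw [← hi, ← Equiv.Perm.iterate_eq_pow]
  exact (Function.minimalPeriod_apply_iterate (σ.injective.mem_periodicPts v) i).symm

theorem same_iter (σ : Equiv.Perm V) (i : V) (k : ℕ) : σ.SameCycle i (σ^[k] i) :=
  ⟨k, by rw [zpow_natCast, Equiv.Perm.iterate_eq_pow]⟩

/-- a representative of the cycle -/
noncomputable def rep (σ : Equiv.Perm V) (v : V) : V :=
  (Quotient.mk (Equiv.Perm.SameCycle.setoid σ) v).out

theorem rep_same (σ : Equiv.Perm V) (v : V) : σ.SameCycle v (rep σ v) :=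
  (Quotient.mk_out (s := Equiv.Perm.SameCycle.setoid σ) v).symm

theorem rep_eq {σ : Equiv.Perm V} {v w : V} (h : σ.SameCycle v w) : rep σ v = rep σ w := by
  unfold rep
  rw [Quotient.sound (s := Equiv.Perm.SameCycle.setoid σ) h]

theorem main : S_SEP := by
  intro ρ
  refine ⟨2 * 4 ^ (2 * ρ) + 1, ?_⟩
  intro V _ G hconn hG σ hper
  set b := 4 ^ (2 * ρ) with hb
  set g := 2 * b + 1 with hg
  let R : Finset V := univ.filter (fun v => rep σ v = v ∧ Odd (Function.minimalPeriod σ v))
  have hR : ∀ v, v ∈ R ↔ rep σ v = v ∧ Odd (Function.minimalPeriod σ v) := fun v => by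
    simp only [R, mem_filter, mem_univ, true_and]
  let adj : V × Fin g → V × Fin g → Prop := fun a c =>
    a.1 ∈ R ∧ c.1 ∈ R ∧ a.1 ≠ c.1 ∧ G.dist (σ^[(a.2 : ℕ)] a.1) (σ^[(c.2 : ℕ)] c.1) ≤ 2 * ρ
  have hsymm : ∀ a c, adj a c → adj c a := by
    rintro a c ⟨h1, h2, h3, h4⟩
    exact ⟨h2, h1, h3.symm, by rw [SimpleGraph.dist_comm]; exact h4⟩
  have hne : Nonempty (Fin g) := ⟨⟨0, by omega⟩⟩
  have hHax : ∀ K : Finset V, K.Nonempty → ∀ Z : Finset (V × Fin g),
      Z.card ≤ 2 * (K.card - 1) → ∃ i ∈ K, ∃ s, ∀ z ∈ Z, ¬ adj (i, s) z := by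
    intro K hK Z hZ
    by_contra hcon
    push Not at hcon
    have hKR : ∀ i ∈ K, i ∈ R := by
      intro i hi
      obtain ⟨z, _, hz⟩ := hcon i hi hne.some
      exact hz.1
    have hinj : Set.InjOn (fun a : V × Fin g => σ^[(a.2 : ℕ)] a.1)
        (↑(K ×ˢ (univ : Finset (Fin g))) : Set (V × Fin g)) := by
      rintro ⟨i, s⟩ hi ⟨j, s'⟩ hj hij
      rw [Finset.mem_coe, mem_product] at hi hj
      simp only at hij
      have h1 : σ.SameCycle i j :=
        (same_iter σ i s).trans (hij ▸ (same_iter σ j s').symm)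
      have h2 : i = j := by
        rw [← ((hR i).mp (hKR i hi.1)).1, ← ((hR j).mp (hKR j hj.1)).1]
        exact rep_eq h1
      subst h2
      have h3 := hper i ((hR i).mp (hKR i hi.1)).2
      have h4 := (Function.iterate_eq_iterate_iff_of_lt_minimalPeriod
        (lt_of_lt_of_le s.2 h3) (lt_of_lt_of_le s'.2 h3)).mp hij
      rw [Fin.ext h4]
    have hsub : (K ×ˢ (univ : Finset (Fin g))).image (fun a => σ^[(a.2 : ℕ)] a.1) ⊆
        Z.biUnion (fun z => ball G (2 * ρ) (σ^[(z.2 : ℕ)] z.1)) := by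
      intro v hv
      obtain ⟨⟨i, s⟩, hi, rfl⟩ := mem_image.mp hv
      rw [mem_product] at hi
      obtain ⟨z, hz, h1, h2, h3, h4⟩ := hcon i hi.1 s
      rw [mem_biUnion]
      refine ⟨z, hz, mem_ball.mpr ?_⟩
      obtain ⟨p, hp⟩ := (hconn.preconnected (σ^[(z.2 : ℕ)] z.1)
        (σ^[(s : ℕ)] i)).exists_walk_length_eq_dist
      refine ⟨p, ?_⟩
      rw [hp, SimpleGraph.dist_comm]
      exact h4
    have h1 := card_le_card hsub
    rw [card_image_of_injOn hinj, card_product, card_univ, Fintype.card_fin] at h1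
    have h2 := card_biUnion_le_card_mul Z (fun z => ball G (2 * ρ) (σ^[(z.2 : ℕ)] z.1)) b
      (fun z _ => ball_card G hG _ _)
    have h3 : 1 ≤ K.card := hK.card_pos
    obtain ⟨k, hk⟩ : ∃ k, K.card = k + 1 := ⟨K.card - 1, by omega⟩
    have h4 : (k + 1) * g ≤ (2 * k) * b := by
      calc (k + 1) * g = K.card * g := by rw [hk]
        _ ≤ Z.card * b := h1.trans h2
        _ ≤ (2 * k) * b := Nat.mul_le_mul_right _ (by rw [hk] at hZ; simpa using hZ)
    rw [hg] at h4
    nlinarith
  obtain ⟨f, hf⟩ := Pool.Agent.H931R2.Haxell.finite hsymm hHax R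
  refine ⟨R.image (fun i => σ^[(f i : ℕ)] i), ⟨?_, ?_⟩, ?_⟩
  · intro v hv
    have h1 := rep_same σ v
    have h2 : rep σ v ∈ R := (hR _).mpr ⟨(rep_eq h1).symm, by rw [← per_same h1]; exact hv⟩
    refine ⟨σ^[(f (rep σ v) : ℕ)] (rep σ v), ⟨mem_image_of_mem _ h2,
      h1.trans (same_iter σ _ _)⟩, ?_⟩
    rintro x ⟨hx, hvx⟩
    obtain ⟨j, hj, rfl⟩ := mem_image.mp hx
    have h3 : σ.SameCycle v j := hvx.trans (same_iter σ j _).symm
    have h4 : j = rep σ v := by
      rw [rep_eq h3]
      exact ((hR j).mp hj).1.symm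
    rw [h4]
  · intro x hx
    obtain ⟨j, hj, rfl⟩ := mem_image.mp hx
    rw [← per_same (same_iter σ j _)]
    exact ((hR j).mp hj).2
  · intro x hx y hy hxy
    obtain ⟨i, hi, rfl⟩ := mem_image.mp hx
    obtain ⟨j, hj, rfl⟩ := mem_image.mp hy
    have hij : i ≠ j := fun h => hxy (by rw [h])
    by_contra hcon
    exact hf i hi j hj hij ⟨hi, hj, hij, by simp only; omega⟩

end Pool.Agent.N263.EX_SEP
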