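import Mathlib

/-!
The nonlinearity: `gg u = e^u` for `u ≤ -1`, `gg u = -u (u + 2) e^u` for `-1 ≤ u ≤ 0`,
`gg u = -2 sin u` for `u ≥ 0`.
-/

set_option autoImplicit false

open MeasureTheory Set Filter Topology

namespace Pool.Agent.N263.GFun

theorem glue {a b : ℝ → ℝ} {c d : ℝ} (ha : HasDerivAt a d c) (hb : HasDerivAt b d c)
    (h : a c = b c) : HasDerivAt (fun x => if x ≤ c then a x else b x) d c := by
  have h1 : HasDerivWithinAt (fun x => if x ≤ c then a x else b x) d (Iic c) c :=
    ha.hasDerivWithinAt.congr (fun x hx => if_pos hx) (if_pos le_rfl)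
  have h2 : HasDerivWithinAt (fun x => if x ≤ c then a x else b x) d (Ici c) c := by
    refine hb.hasDerivWithinAt.congr (fun x hx => ?_) ?_
    · rcases eq_or_lt_of_le (show c ≤ x from hx) with h3 | h3
      · rw [← h3, if_pos le_rfl, h]
      · rw [if_neg (not_le.2 h3)]
    · rw [if_pos le_rfl, h]
  have h3 := h1.union h2
  rwa [Iic_union_Ici, hasDerivWithinAt_univ] at h3

/-- right part -/
noncomputable def gr (u : ℝ) : ℝ := if u ≤ 0 then -(u * (u + 2)) * Real.exp u else -2 * Real.sin u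

noncomputable def gr' (u : ℝ) : ℝ :=
  if u ≤ 0 then -(u ^ 2 + 4 * u + 2) * Real.exp u else -2 * Real.cos u

noncomputable def gg (u : ℝ) : ℝ := if u ≤ -1 then Real.exp u else gr u

noncomputable def gg' (u : ℝ) : ℝ := if u ≤ -1 then Real.exp u else gr' u

theorem hmid (u : ℝ) : HasDerivAt (fun u => -(u * (u + 2)) * Real.exp u)
    (-(u ^ 2 + 4 * u + 2) * Real.exp u) u := by
  have h1 : HasDerivAt (fun u : ℝ => -(u * (u + 2))) (-(1 * (u + 2) + u * 1)) u :=
    ((hasDerivAt_id u).mul ((hasDerivAt_id u).add_const 2)).neg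
  refine (h1.mul (Real.hasDerivAt_exp u)).congr_deriv ?_
  ring

theorem hsin (u : ℝ) : HasDerivAt (fun u => -2 * Real.sin u) (-2 * Real.cos u) u :=
  (Real.hasDerivAt_sin u).const_mul (-2)

theorem hgr (u : ℝ) : HasDerivAt gr (gr' u) u := by
  rcases lt_trichotomy u 0 with h | h | h
  · have e : gr =ᶠ[𝓝 u] fun u => -(u * (u + 2)) * Real.exp u := by
      filter_upwards [Iio_mem_nhds h] with x hx
      exact if_pos (le_of_lt hx)
    have e' : gr' u = -(u ^ 2 + 4 * u + 2) * Real.exp u := if_pos h.le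
    rw [e']
    exact (hmid u).congr_of_eventuallyEq e
  · subst h
    have e' : gr' 0 = -2 := by simp [gr']
    rw [e']
    refine glue ((hmid 0).congr_deriv (by simp)) ((hsin 0).congr_deriv (by simp)) (by simp)
  · have e : gr =ᶠ[𝓝 u] fun u => -2 * Real.sin u := by
      filter_upwards [Ioi_mem_nhds h] with x hx
      exact if_neg (not_le.2 hx)
    have e' : gr' u = -2 * Real.cos u := if_neg (not_le.2 h)
    rw [e']
    exact (hsin u).congr_of_eventuallyEq e

theorem hgg (u : ℝ) : HasDerivAt gg (gg' u) u := by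
  rcases lt_trichotomy u (-1) with h | h | h
  · have e : gg =ᶠ[𝓝 u] Real.exp := by
      filter_upwards [Iio_mem_nhds h] with x hx
      exact if_pos (le_of_lt hx)
    have e' : gg' u = Real.exp u := if_pos h.le
    rw [e']
    exact (Real.hasDerivAt_exp u).congr_of_eventuallyEq e
  · subst h
    have e' : gg' (-1) = Real.exp (-1) := if_pos le_rfl
    rw [e']
    refine glue (Real.hasDerivAt_exp (-1)) ((hgr (-1)).congr_deriv ?_) ?_
    · have : gr' (-1) = -((-1 : ℝ) ^ 2 + 4 * (-1) + 2) * Real.exp (-1) := if_pos (by norm_num)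
      rw [this]
      ring
    · have : gr (-1) = -((-1 : ℝ) * (-1 + 2)) * Real.exp (-1) := if_pos (by norm_num)
      rw [this]
      ring
  · have e : gg =ᶠ[𝓝 u] gr := by
      filter_upwards [Ioi_mem_nhds h] with x hx
      exact if_neg (not_le.2 hx)
    have e' : gg' u = gr' u := if_neg (not_le.2 h)
    rw [e']
    exact (hgr u).congr_of_eventuallyEq e

theorem gg_low {u : ℝ} (h : u ≤ -1) : gg u = Real.exp u := if_pos h

theorem gg'_low {u : ℝ} (h : u ≤ -1) : gg' u = Real.exp u := if_pos h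

theorem gg_mid {u : ℝ} (h : -1 ≤ u) (h0 : u ≤ 0) : gg u = -(u * (u + 2)) * Real.exp u := by
  rcases eq_or_lt_of_le h with h1 | h1
  · rw [← h1, gg_low le_rfl]
    ring
  · have : gg u = gr u := if_neg (not_le.2 h1)
    rw [this]
    exact if_pos h0

theorem gg'_mid {u : ℝ} (h : -1 ≤ u) (h0 : u ≤ 0) :
    gg' u = -(u ^ 2 + 4 * u + 2) * Real.exp u := by
  rcases eq_or_lt_of_le h with h1 | h1
  · rw [← h1, gg'_low le_rfl]
    ring
  · have : gg' u = gr' u := if_neg (not_le.2 h1)
    rw [this]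
    exact if_pos h0

theorem gg_hi {u : ℝ} (h : 0 < u) : gg u = -2 * Real.sin u := by
  have : gg u = gr u := if_neg (not_le.2 (by linarith))
  rw [this]
  exact if_neg (not_le.2 h)

theorem gg'_hi {u : ℝ} (h : 0 < u) : gg' u = -2 * Real.cos u := by
  have : gg' u = gr' u := if_neg (not_le.2 (by linarith))
  rw [this]
  exact if_neg (not_le.2 h)

theorem gg'_cont : Continuous gg' := by
  unfold gg'
  refine Continuous.if_le Real.continuous_exp ?_ continuous_id continuous_const ?_
  · unfold gr'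
    refine Continuous.if_le (by fun_prop) (by fun_prop) continuous_id continuous_const ?_
    intro x hx
    have hx' : x = 0 := hx
    subst hx'
    simp
  · intro x hx
    have hx' : x = -1 := hx
    subst hx'
    have : gr' (-1) = -((-1 : ℝ) ^ 2 + 4 * (-1) + 2) * Real.exp (-1) := if_pos (by norm_num)
    rw [this]
    ring

theorem gg_deriv : deriv gg = gg' := funext fun u => (hgg u).deriv

theorem gg_c1 : ContDiff ℝ 1 gg := by
  rw [contDiff_one_iff_deriv, gg_deriv]
  exact ⟨fun u => (hgg u).differentiableAt, gg'_cont⟩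

theorem gg_zero : gg 0 = 0 := by
  rw [gg_mid (by norm_num) le_rfl]
  simp

theorem gg_pos {u : ℝ} (h : u < 0) : 0 < gg u := by
  rcases le_total u (-1) with h1 | h1
  · rw [gg_low h1]
    exact Real.exp_pos u
  · rw [gg_mid h1 h.le]
    have : 0 < -(u * (u + 2)) := by nlinarith
    exact mul_pos this (Real.exp_pos u)

theorem gg_bdd (u : ℝ) : |gg u| + |gg' u| ≤ 9 := by
  rcases le_total u (-1) with h1 | h1
  · rw [gg_low h1, gg'_low h1, abs_of_pos (Real.exp_pos u)]
    have : Real.exp u ≤ 1 := Real.exp_le_one_iff.2 (by linarith)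
    linarith
  rcases le_or_gt u 0 with h2 | h2
  · rw [gg_mid h1 h2, gg'_mid h1 h2, abs_mul, abs_mul, abs_of_pos (Real.exp_pos u)]
    have h3 : Real.exp u ≤ 1 := Real.exp_le_one_iff.2 h2
    have h4 := Real.exp_pos u
    have h5 : |(-(u * (u + 2)))| ≤ 1 := by
      rw [abs_le]
      constructor <;> nlinarith
    have h6 : |(-(u ^ 2 + 4 * u + 2))| ≤ 2 := by
      rw [abs_le]
      constructor <;> nlinarith
    have h7 : |(-(u * (u + 2)))| * Real.exp u ≤ 1 * 1 :=
      mul_le_mul h5 h3 h4.le (by norm_num)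
    have h8 : |(-(u ^ 2 + 4 * u + 2))| * Real.exp u ≤ 2 * 1 :=
      mul_le_mul h6 h3 h4.le (by norm_num)
    linarith
  · rw [gg_hi h2, gg'_hi h2, abs_mul, abs_mul]
    have h3 := Real.abs_sin_le_one u
    have h4 := Real.abs_cos_le_one u
    have h5 : |(-2 : ℝ)| = 2 := by norm_num
    rw [h5]
    linarith

theorem gg'_le {u : ℝ} (h : -1 ≤ u) (h0 : u ≤ 0) : gg' u ≤ gg u := by
  rw [gg_mid h h0, gg'_mid h h0]
  have h4 := Real.exp_pos u
  have : -(u ^ 2 + 4 * u + 2) ≤ -(u * (u + 2)) := by nlinarith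
  exact mul_le_mul_of_nonneg_right this h4.le

theorem gg_cont : Continuous gg := gg_c1.continuous

theorem gg_int (u : ℝ) : IntegrableOn gg (Iic u) := by
  have h1 : IntegrableOn gg (Iic (-1)) :=
    (integrableOn_exp_Iic (-1)).congr_fun (fun x hx => (gg_low hx).symm) measurableSet_Iic
  have h2 : IntegrableOn gg (Icc (-1) u) := gg_cont.continuousOn.integrableOn_Icc
  refine (h1.union h2).mono_set ?_
  intro x hx
  rcases le_total x (-1) with h3 | h3
  · exact Or.inl h3
  · exact Or.inr ⟨h3, hx⟩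

theorem G_low {u : ℝ} (h : u ≤ -1) : ∫ s in Iic u, gg s = gg u := by
  rw [gg_low h, ← integral_exp_Iic u]
  refine setIntegral_congr_fun measurableSet_Iic fun x hx => ?_
  exact gg_low (le_trans hx h)

theorem G_ge {u : ℝ} (h : u ≤ 0) : gg u ≤ ∫ s in Iic u, gg s := by
  rcases le_total u (-1) with h1 | h1
  · exact (G_low h1).ge
  · have e1 : ∫ s in Iic u, gg s = (∫ s in Iic (-1), gg s) + ∫ s in (-1 : ℝ)..u, gg s := by
      rw [← intervalIntegral.integral_Iic_sub_Iic (gg_int _) (gg_int _)]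
      ring
    have e2 : ∫ s in (-1 : ℝ)..u, gg' s = gg u - gg (-1) :=
      intervalIntegral.integral_eq_sub_of_hasDerivAt (fun x _ => hgg x)
        (gg'_cont.intervalIntegrable _ _)
    have e3 : ∫ s in (-1 : ℝ)..u, gg' s ≤ ∫ s in (-1 : ℝ)..u, gg s :=
      intervalIntegral.integral_mono_on h1 (gg'_cont.intervalIntegrable _ _)
        (gg_cont.intervalIntegrable _ _) fun x hx => gg'_le hx.1 (hx.2.trans h)
    have e4 := G_low (u := -1) le_rfl
    linarith

end Pool.Agent.N263.GFun
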