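import Pool.Agent.N367.LE.Stm

/-! LE/PAR (helper263 for helper367): the valuation at two of the sums `T`. -/

set_option autoImplicit false

namespace Pool.Agent.N263.LEPAR

open Finset Pool.Agent.N367.LE

/-! ### sums over residues -/

theorem sum_crt {m n : ℕ} (hmn : Nat.Coprime m n) (hm : 0 < m) (hn : 0 < n) (f g : ℕ → ℤ)
    (hf : ∀ a, f (a % m) = f a) (hg : ∀ a, g (a % n) = g a) :
    ∑ a ∈ range (m * n), f a * g a = (∑ x ∈ range m, f x) * ∑ y ∈ range n, g y := by
  rw [sum_mul_sum, ← sum_product']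
  refine sum_nbij' (fun a => (a % m, a % n)) (fun p => (Nat.chineseRemainder hmn p.1 p.2 : ℕ))
    ?_ ?_ ?_ ?_ ?_
  · intro a _
    simp only [mem_product, mem_range]
    exact ⟨Nat.mod_lt _ hm, Nat.mod_lt _ hn⟩
  · intro p _
    rw [mem_range]
    exact Nat.chineseRemainder_lt_mul hmn p.1 p.2 hm.ne' hn.ne'
  · intro a ha
    rw [mem_range] at ha
    have h1 : a ≡ Nat.chineseRemainder hmn (a % m) (a % n) [MOD m * n] :=
      Nat.chineseRemainder_modEq_unique hmn (Nat.mod_modEq _ _).symm (Nat.mod_modEq _ _).symm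
    exact (Nat.ModEq.eq_of_lt_of_lt h1 ha (Nat.chineseRemainder_lt_mul hmn _ _ hm.ne' hn.ne')).symm
  · intro p hp
    rw [mem_product, mem_range, mem_range] at hp
    obtain ⟨h1, h2⟩ := (Nat.chineseRemainder hmn p.1 p.2).2
    refine Prod.ext ?_ ?_
    · exact Eq.trans h1 (Nat.mod_eq_of_lt hp.1)
    · exact Eq.trans h2 (Nat.mod_eq_of_lt hp.2)
  · intro a _
    simp only
    rw [hf, hg]

theorem wsum (k : ℕ) {M : ℕ} (h : ℕ → ℤ) (hper : ∀ a, h (a % M) = h a)
    (h0 : ∑ a ∈ range M, h a = 0) :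
    ∑ a ∈ range (k * M), (a : ℤ) * h a = k * ∑ a ∈ range M, (a : ℤ) * h a := by
  induction k with
  | zero => simp
  | succ k ih =>
    rw [Nat.succ_mul, sum_range_add, ih]
    have h1 : ∀ x ∈ range M, ((k * M + x : ℕ) : ℤ) * h (k * M + x) =
        (k * M : ℕ) * h x + (x : ℤ) * h x := by
      intro x hx
      have h2 : h (k * M + x) = h x := by
        rw [← hper (k * M + x), Nat.add_comm, Nat.add_mul_mod_self_right, Nat.mod_eq_of_lt (mem_range.1 hx)]
      rw [h2]
      push_cast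
      ring
    rw [sum_congr rfl h1, sum_add_distrib, ← mul_sum, h0]
    push_cast
    ring

theorem sum_mult {l K : ℕ} (hl : 0 < l) (f : ℕ → ℤ) :
    ∑ a ∈ range (l * K), (if l ∣ a then f a else 0) = ∑ a ∈ range K, f (l * a) := by
  rw [← sum_filter]
  refine (sum_nbij' (fun a => l * a) (fun a => a / l) ?_ ?_ ?_ ?_ ?_).symm
  · intro a ha
    rw [mem_filter, mem_range]
    rw [mem_range] at ha
    exact ⟨Nat.mul_lt_mul_of_pos_left ha hl, dvd_mul_right _ _⟩
  · intro a ha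
    rw [mem_filter, mem_range] at ha
    rw [mem_range]
    exact Nat.div_lt_of_lt_mul ha.1
  · intro a _
    exact Nat.mul_div_cancel_left a hl
  · intro a ha
    rw [mem_filter] at ha
    exact Nat.mul_div_cancel' ha.2
  · intro a _
    rfl

theorem refl2 {N : ℕ} (h : ℕ → ℤ) (hN : h N = 0)
    (hr : ∀ a ≤ N, h (N - a) = h a) :
    2 * ∑ a ∈ range N, (a : ℤ) * h a = N * ∑ a ∈ range N, h a := by
  have h1 : ∑ a ∈ range (N + 1), (a : ℤ) * h a = ∑ a ∈ range N, (a : ℤ) * h a := by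
    rw [sum_range_succ, hN, mul_zero, add_zero]
  have h2 : ∑ a ∈ range (N + 1), h a = ∑ a ∈ range N, h a := by
    rw [sum_range_succ, hN, add_zero]
  have h3 := sum_flip (n := N) (fun a => (a : ℤ) * h a)
  have h4 : ∑ a ∈ range (N + 1), ((N - a : ℕ) : ℤ) * h (N - a) =
      N * ∑ a ∈ range (N + 1), h a - ∑ a ∈ range (N + 1), (a : ℤ) * h a := by
    rw [mul_sum, ← sum_sub_distrib]
    refine sum_congr rfl fun a ha => ?_
    have h5 : a ≤ N := Nat.lt_succ_iff.1 (mem_range.1 ha)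
    rw [hr a h5, Nat.cast_sub h5]
    ring
  rw [← h1, ← h2]
  have h6 : ∑ r ∈ range (N + 1), ((N - r : ℕ) : ℤ) * h (N - r) = ∑ k ∈ range (N + 1), (k : ℤ) * h k := h3
  rw [h6] at h4
  linarith

/-! ### the conductors -/

theorem cb_pos {b : ℕ} (hb : b.Prime) : 0 < cb b := by
  unfold cb
  split_ifs
  · norm_num
  · exact hb.pos

theorem dvd_cb (b : ℕ) : b ∣ cb b := by
  unfold cb
  split_ifs with h
  · rw [h]; norm_num
  · exact dvd_rfl

theorem cond_insert {b : ℕ} {A : Finset ℕ} (h : b ∉ A) : cond (insert b A) = cb b * cond A := by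
  unfold Pool.Agent.N367.LE.cond
  rw [prod_insert h]

theorem cond_pos {A : Finset ℕ} (hA : ∀ a ∈ A, a.Prime) : 0 < cond A := by
  unfold Pool.Agent.N367.LE.cond
  exact prod_pos fun a ha => cb_pos (hA a ha)

theorem cb_dvd {A : Finset ℕ} {b : ℕ} (hb : b ∈ A) : cb b ∣ cond A := dvd_prod_of_mem _ hb

theorem cop_cb {b c : ℕ} (hb : b.Prime) (hc : c.Prime) (h : b ≠ c) : Nat.Coprime (cb b) (cb c) := by
  have h1 : Nat.Coprime b c := (Nat.coprime_primes hb hc).2 h
  unfold cb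
  split_ifs with h2 h3 h3
  · exact absurd (h2.trans h3.symm) h
  · rw [h2] at h1
    have : (8 : ℕ) = 2 ^ 3 := by norm_num
    rw [this]
    exact Nat.Coprime.pow_left 3 h1
  · rw [h3] at h1
    have : (8 : ℕ) = 2 ^ 3 := by norm_num
    rw [this]
    exact Nat.Coprime.pow_right 3 h1
  · exact h1

theorem cop_cond {A : Finset ℕ} (hA : ∀ a ∈ A, a.Prime) {b : ℕ} (hb : b.Prime) (hbA : b ∉ A) :
    Nat.Coprime (cb b) (cond A) := by
  unfold Pool.Agent.N367.LE.cond
  refine Nat.Coprime.prod_right fun c hc => cop_cb hb (hA c hc) ?_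
  rintro rfl
  exact hbA hc

theorem per_prod {A : Finset ℕ} (F : ℕ → ℕ → ℤ) (hF : ∀ b ∈ A, ∀ a, F b (a % cb b) = F b a) (a : ℕ) :
    ∏ b ∈ A, F b (a % cond A) = ∏ b ∈ A, F b a := by
  refine prod_congr rfl fun b hb => ?_
  rw [← hF b hb (a % cond A), Nat.mod_mod_of_dvd a (cb_dvd hb), hF b hb]

theorem sum_prod {A : Finset ℕ} (hA : ∀ a ∈ A, a.Prime) (F : ℕ → ℕ → ℤ)
    (hF : ∀ b ∈ A, ∀ a, F b (a % cb b) = F b a) :
    ∑ a ∈ range (cond A), ∏ b ∈ A, F b a = ∏ b ∈ A, ∑ a ∈ range (cb b), F b a := by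
  induction A using Finset.induction_on with
  | empty => simp [Pool.Agent.N367.LE.cond]
  | insert b A hb ih =>
    have hA' : ∀ a ∈ A, a.Prime := fun a ha => hA a (mem_insert_of_mem ha)
    have hbp := hA b (mem_insert_self b A)
    have hF' : ∀ c ∈ A, ∀ a, F c (a % cb c) = F c a := fun c hc => hF c (mem_insert_of_mem hc)
    rw [cond_insert hb, prod_insert hb, ← ih hA' hF']
    rw [← sum_crt (cop_cond hA' hbp hb) (cb_pos hbp) (cond_pos hA') (F b) (fun a => ∏ c ∈ A, F c a)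
      (hF b (mem_insert_self b A)) (fun a => per_prod F hF' a)]
    refine sum_congr rfl fun a _ => ?_
    rw [prod_insert hb]

/-! ### the components -/

variable {δ : ℤ}

theorem Int.emod_emod_eq_zero_263 {b : ℕ} {x y : ℤ} (h : (b : ℤ) ∣ x - y) : x % b = y % b :=
  Int.emod_eq_emod_iff_emod_sub_eq_zero.2 (Int.emod_eq_zero_of_dvd h)

theorem sval_two (a : ℤ) :
    sval δ 2 a = if δ = 8 then ZMod.χ₈ (a : ZMod 8) else ZMod.χ₈' (a : ZMod 8) := by
  unfold sval
  rw [if_pos rfl]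

theorem sval_odd {b : ℕ} (hb : b ≠ 2) (a : ℤ) : sval δ b a = jacobiSym a b := by
  unfold sval
  rw [if_neg hb]

theorem sval_mul (b : ℕ) (x y : ℤ) : sval δ b (x * y) = sval δ b x * sval δ b y := by
  unfold sval
  split_ifs
  · rw [Int.cast_mul, map_mul]
  · rw [Int.cast_mul, map_mul]
  · rw [jacobiSym.mul_left]

theorem sval_congr {b : ℕ} {x y : ℤ} (h : (cb b : ℤ) ∣ x - y) : sval δ b x = sval δ b y := by
  unfold sval
  by_cases hb : b = 2
  · rw [if_pos hb, if_pos hb]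
    have h1 : (x : ZMod 8) = (y : ZMod 8) := by
      rw [← sub_eq_zero, ← Int.cast_sub]
      unfold cb at h
      rw [if_pos hb] at h
      exact (ZMod.intCast_zmod_eq_zero_iff_dvd _ 8).2 (by exact_mod_cast h)
    rw [h1]
  · rw [if_neg hb, if_neg hb]
    unfold cb at h
    rw [if_neg hb] at h
    rw [jacobiSym.mod_left x b, jacobiSym.mod_left y b]
    rw [(Int.emod_emod_eq_zero_263 h)]

theorem sval_mod (b a : ℕ) : sval δ b ((a % cb b : ℕ) : ℤ) = sval δ b (a : ℤ) := by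
  apply sval_congr
  rw [← dvd_neg, neg_sub]
  have h1 : ((a % cb b : ℕ) : ℤ) = (a : ℤ) % (cb b : ℤ) := by push_cast; rfl
  rw [h1]
  exact Int.dvd_self_sub_emod

theorem dvd_mod_iff (b a : ℕ) : b ∣ a % cb b ↔ b ∣ a := Nat.dvd_mod_iff (dvd_cb b)

/-- the values at two -/
theorem sval_two_nat (hδ : δ = 8 ∨ δ = -8) (a : ℕ) :
    (sval δ 2 (a : ℤ) = 0 ∧ 2 ∣ a) ∨ ((sval δ 2 (a : ℤ) = 1 ∨ sval δ 2 (a : ℤ) = -1) ∧ ¬ 2 ∣ a) := by
  have h1 : cb 2 = 8 := rfl
  rw [← sval_mod 2 a, ← dvd_mod_iff 2 a, h1]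
  have h2 : a % 8 < 8 := Nat.mod_lt _ (by norm_num)
  generalize a % 8 = r at h2
  rcases hδ with rfl | rfl <;> interval_cases r <;> decide

theorem sval_nat {b : ℕ} (hδ : δ = 8 ∨ δ = -8) (hb : b.Prime) (a : ℕ) :
    (sval δ b (a : ℤ) = 0 ∧ b ∣ a) ∨ ((sval δ b (a : ℤ) = 1 ∨ sval δ b (a : ℤ) = -1) ∧ ¬ b ∣ a) := by
  by_cases h2 : b = 2
  · subst h2
    exact sval_two_nat hδ a
  · rw [sval_odd h2]
    have : NeZero b := ⟨hb.ne_zero⟩
    by_cases h : b ∣ a
    · left
      refine ⟨?_, h⟩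
      rw [jacobiSym.eq_zero_iff_not_coprime]
      intro h3
      have h4 : (b : ℤ) ∣ Int.gcd (a : ℤ) (b : ℤ) := Int.dvd_coe_gcd (by exact_mod_cast h) dvd_rfl
      rw [h3] at h4
      have h5 : b ∣ 1 := by exact_mod_cast h4
      exact hb.one_lt.ne' (Nat.dvd_one.1 h5)
    · right
      refine ⟨?_, h⟩
      have h3 : jacobiSym (a : ℤ) b ≠ 0 := by
        rw [Ne, jacobiSym.eq_zero_iff_not_coprime, not_not]
        have h4 : Nat.Coprime b a := (Nat.Prime.coprime_iff_not_dvd hb).2 h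
        rw [Int.gcd_natCast_natCast]
        exact h4.symm
      rcases jacobiSym.trichotomy (a : ℤ) b with h4 | h4 | h4
      · exact absurd h4 h3
      · exact Or.inl h4
      · exact Or.inr h4

theorem sval_neg_one {b : ℕ} (hδ : δ = 8 ∨ δ = -8) (hb : b.Prime) :
    sval δ b (-1) = 1 ∨ sval δ b (-1) = -1 := by
  have h1 : sval δ b (-1) = sval δ b ((cb b - 1 : ℕ) : ℤ) := by
    apply sval_congr
    have h2 := cb_pos hb
    rw [Nat.cast_sub h2]
    refine ⟨-1, by push_cast; ring⟩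
  rw [h1]
  rcases sval_nat hδ hb (cb b - 1) with h2 | h2
  · exfalso
    have h3 : b ∣ 1 := by
      have h4 : b ∣ (cb b - 1) + 1 := by
        rw [Nat.sub_add_cancel (cb_pos hb)]
        exact dvd_cb b
      exact (Nat.dvd_add_right h2.2).1 h4
    exact hb.one_lt.ne' (Nat.dvd_one.1 h3)
  · exact h2.1

theorem sum_sval {b : ℕ} (hδ : δ = 8 ∨ δ = -8) (hb : b.Prime) :
    ∑ a ∈ range (cb b), sval δ b (a : ℤ) = 0 := by
  by_cases h2 : b = 2
  · subst h2
    rcases hδ with rfl | rfl <;> decide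
  · have hcb : cb b = b := by unfold cb; rw [if_neg h2]
    rw [hcb]
    have : Fact b.Prime := ⟨hb⟩
    have h3 : ∀ a ∈ range b, sval δ b (a : ℤ) = quadraticChar (ZMod b) ((a : ℕ) : ZMod b) := by
      intro a _
      rw [sval_odd h2, ← jacobiSym.legendreSym.to_jacobiSym]
      simp [legendreSym]
    rw [sum_congr rfl h3]
    have h4 : ∑ a ∈ range b, quadraticChar (ZMod b) ((a : ℕ) : ZMod b) =
        ∑ x : ZMod b, quadraticChar (ZMod b) x := by
      refine sum_nbij' (fun a => (a : ZMod b)) (fun x => x.val) ?_ ?_ ?_ ?_ ?_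
      · intro a _; exact mem_univ _
      · intro x _; rw [mem_range]; exact ZMod.val_lt x
      · intro a ha; exact ZMod.val_cast_of_lt (mem_range.1 ha)
      · intro x _; exact ZMod.natCast_zmod_val x
      · intro a _; rfl
    rw [h4]
    exact quadraticChar_sum_zero (by rw [ZMod.ringChar_zmod_n]; exact h2)

/-- the indicator of the numbers not divisible by `b` -/
def nd (b a : ℕ) : ℤ := if b ∣ a then 0 else 1

/-- the indicator of the value one -/
def o1 (δ : ℤ) (b a : ℕ) : ℤ := if sval δ b (a : ℤ) = 1 then 1 else 0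

theorem nd_mod (b a : ℕ) : nd b (a % cb b) = nd b a := by
  unfold nd
  simp only [dvd_mod_iff]

theorem o1_mod (b a : ℕ) : o1 δ b (a % cb b) = o1 δ b a := by
  unfold o1
  rw [sval_mod]

theorem two_o1 {b : ℕ} (hδ : δ = 8 ∨ δ = -8) (hb : b.Prime) (a : ℕ) :
    2 * o1 δ b a = nd b a + sval δ b (a : ℤ) := by
  unfold o1 nd
  rcases sval_nat hδ hb a with ⟨h1, h2⟩ | ⟨h1 | h1, h2⟩
  · rw [h1, if_pos h2]; norm_num
  · rw [h1, if_neg h2]; norm_num
  · rw [h1, if_neg h2]; norm_num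

theorem sum_nd {b : ℕ} (hb : b.Prime) : ∑ a ∈ range (cb b), nd b a = if b = 2 then 4 else (b : ℤ) - 1 := by
  by_cases h2 : b = 2
  · subst h2
    decide
  · rw [if_neg h2]
    have hcb : cb b = b := by unfold cb; rw [if_neg h2]
    rw [hcb]
    obtain ⟨k, hk⟩ : ∃ k, b = k + 1 := ⟨b - 1, (Nat.sub_add_cancel hb.pos).symm⟩
    have h3 : ∑ a ∈ range b, nd b a = ∑ a ∈ range b, (if a = 0 then 0 else (1 : ℤ)) := by
      refine sum_congr rfl fun a ha => ?_
      unfold nd
      by_cases h4 : a = 0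
      · rw [h4, if_pos (dvd_zero b), if_pos rfl]
      · rw [if_neg h4, if_neg (Nat.not_dvd_of_pos_of_lt (Nat.pos_of_ne_zero h4) (mem_range.1 ha))]
    rw [h3, hk, sum_range_succ']
    simp

theorem sum_o1 {b : ℕ} (hδ : δ = 8 ∨ δ = -8) (hb : b.Prime) :
    2 * ∑ a ∈ range (cb b), o1 δ b a = if b = 2 then 4 else (b : ℤ) - 1 := by
  rw [← sum_nd hb, mul_sum, sum_congr rfl (fun a _ => two_o1 hδ hb a), sum_add_distrib, sum_sval hδ hb,
    add_zero]

/-! ### the sums with conditions -/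

theorem psi_mul (B : Finset ℕ) (x y : ℤ) : psi δ B (x * y) = psi δ B x * psi δ B y := by
  unfold psi
  rw [← prod_mul_distrib]
  exact prod_congr rfl fun b _ => sval_mul b x y

/-- the sum with coprimality conditions at `E` -/
def SS (δ : ℤ) (B E : Finset ℕ) : ℤ :=
  ∑ a ∈ range (Pool.Agent.N367.LE.cond (B ∪ E)), (a : ℤ) * (psi δ B a * ∏ l ∈ E, nd l a)

theorem SS_empty (B : Finset ℕ) : SS δ B ∅ = T δ B := by
  unfold SS T
  simp

/-- the summands -/
def hh (δ : ℤ) (B E : Finset ℕ) (a : ℕ) : ℤ := psi δ B a * ∏ l ∈ E, nd l a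

theorem hh_eq (B E : Finset ℕ) (hd : Disjoint B E) (a : ℕ) :
    hh δ B E a = ∏ b ∈ B ∪ E, (if b ∈ B then sval δ b (a : ℤ) else nd b a) := by
  unfold hh psi
  rw [prod_union hd]
  congr 1
  · exact prod_congr rfl fun b hb => by rw [if_pos hb]
  · exact prod_congr rfl fun b hb => by rw [if_neg (fun h => (disjoint_left.1 hd h) hb)]

theorem hh_per (B E : Finset ℕ) (hd : Disjoint B E) (a : ℕ) :
    hh δ B E (a % Pool.Agent.N367.LE.cond (B ∪ E)) = hh δ B E a := by
  rw [hh_eq B E hd, hh_eq B E hd]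
  refine per_prod (fun b a => if b ∈ B then sval δ b (a : ℤ) else nd b a) (fun b _ a => ?_) a
  simp only [sval_mod, nd_mod]

theorem hh_sum (hδ : δ = 8 ∨ δ = -8) (B E : Finset ℕ) (hd : Disjoint B E) (hp : ∀ b ∈ B ∪ E, b.Prime)
    (hB : B.Nonempty) : ∑ a ∈ range (Pool.Agent.N367.LE.cond (B ∪ E)), hh δ B E a = 0 := by
  rw [sum_congr rfl (fun a _ => hh_eq B E hd a)]
  rw [sum_prod hp (fun b a => if b ∈ B then sval δ b (a : ℤ) else nd b a)
    (fun b _ a => by simp only [sval_mod, nd_mod])]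
  obtain ⟨b, hb⟩ := hB
  refine prod_eq_zero (mem_union_left E hb) ?_
  simp only [if_pos hb]
  exact sum_sval hδ (hp b (mem_union_left E hb))

theorem SS_insert (hδ : δ = 8 ∨ δ = -8) (B E : Finset ℕ) (l : ℕ) (hl : l ∉ B ∪ E)
    (hd : Disjoint B E) (hp : ∀ b ∈ B ∪ E, b.Prime) (hlp : l.Prime) (hB : B.Nonempty) :
    SS δ B (insert l E) = cb l * (1 - psi δ B l) * SS δ B E := by
  have hlE : l ∉ E := fun h => hl (mem_union_right B h)
  set M := Pool.Agent.N367.LE.cond (B ∪ E) with hM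
  obtain ⟨q, hq⟩ := dvd_cb l
  have h1 : SS δ B (insert l E) = ∑ a ∈ range (cb l * M), ((a : ℤ) * hh δ B E a -
      (if l ∣ a then (a : ℤ) * hh δ B E a else 0)) := by
    unfold SS
    rw [union_insert, cond_insert hl, ← hM]
    refine sum_congr rfl fun a _ => ?_
    rw [prod_insert hlE]
    unfold hh nd
    split_ifs <;> ring
  rw [h1, sum_sub_distrib]
  have hper := hh_per (δ := δ) B E hd
  have h0 := hh_sum hδ B E hd hp hB
  rw [← hM] at h0
  have h2 : ∑ a ∈ range (cb l * M), (a : ℤ) * hh δ B E a = cb l * SS δ B E := by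
    rw [wsum (cb l) (hh δ B E) (by rw [hM]; exact hper) h0]
    rfl
  have h3 : ∑ a ∈ range (cb l * M), (if l ∣ a then (a : ℤ) * hh δ B E a else 0) =
      cb l * psi δ B l * SS δ B E := by
    rw [hq, mul_assoc, sum_mult hlp.pos]
    have h4 : ∀ a ∈ range (q * M), ((l * a : ℕ) : ℤ) * hh δ B E (l * a) =
        (l * psi δ B l) * ((a : ℤ) * hh δ B E a) := by
      intro a _
      have h5 : hh δ B E (l * a) = psi δ B l * hh δ B E a := by
        unfold hh
        rw [Nat.cast_mul, psi_mul, mul_assoc]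
        congr 2
        refine prod_congr rfl fun c hc => ?_
        unfold nd
        have hcp := hp c (mem_union_right B hc)
        have hcl : ¬ c ∣ l := by
          intro h6
          rw [Nat.prime_dvd_prime_iff_eq hcp hlp] at h6
          rw [h6] at hc
          exact hlE hc
        have h7 : c ∣ l * a ↔ c ∣ a := by
          rw [hcp.dvd_mul]
          exact ⟨fun h8 => h8.resolve_left hcl, Or.inr⟩
        simp only [h7]
      rw [h5]
      push_cast
      ring
    rw [sum_congr rfl h4, ← mul_sum, wsum q (hh δ B E) (by rw [hM]; exact hper) h0]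
    have h8 : ∑ a ∈ range M, (a : ℤ) * hh δ B E a = SS δ B E := rfl
    rw [h8]
    push_cast
    ring
  rw [h2, h3]
  ring

theorem SS_eq (hδ : δ = 8 ∨ δ = -8) (B E : Finset ℕ) (hd : Disjoint B E)
    (hp : ∀ b ∈ B ∪ E, b.Prime) (hB : B.Nonempty) :
    SS δ B E = Pool.Agent.N367.LE.cond E * (∏ l ∈ E, (1 - psi δ B l)) * T δ B := by
  induction E using Finset.induction_on with
  | empty =>
    rw [SS_empty]
    simp [Pool.Agent.N367.LE.cond]
  | insert l E hl ih =>
    have hd' : Disjoint B E := disjoint_of_subset_right (subset_insert l E) hd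
    have hlB : l ∉ B := fun h => (disjoint_left.1 hd h) (mem_insert_self l E)
    have hl' : l ∉ B ∪ E := by
      rw [mem_union]
      exact fun h => h.elim hlB hl
    have hp' : ∀ b ∈ B ∪ E, b.Prime := by
      intro b hb
      refine hp b ?_
      rw [mem_union] at hb ⊢
      exact hb.imp id (fun h => mem_insert_of_mem h)
    rw [SS_insert hδ B E l hl' hd' hp' (hp l (mem_union_right B (mem_insert_self l E))) hB,
      ih hd' hp', cond_insert hl, prod_insert hl]
    push_cast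
    ring

theorem psi_zero (hδ : δ = 8 ∨ δ = -8) {B : Finset ℕ} (hp : ∀ b ∈ B, b.Prime) (hB : B.Nonempty) {a : ℕ}
    (ha : ∀ b ∈ B, b ∣ a) : psi δ B a = 0 := by
  obtain ⟨b, hb⟩ := hB
  unfold psi
  refine prod_eq_zero hb ?_
  rcases sval_nat hδ (hp b hb) a with h | h
  · exact h.1
  · exact absurd (ha b hb) h.2

theorem T_even (hδ : δ = 8 ∨ δ = -8) {B : Finset ℕ} (hp : ∀ b ∈ B, b.Prime) (hB : B.Nonempty)
    (h1 : psi δ B (-1) = 1) : T δ B = 0 := by
  have h2 : 2 * T δ B = Pool.Agent.N367.LE.cond B * ∑ a ∈ range (Pool.Agent.N367.LE.cond B), psi δ B a := by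
    refine refl2 (fun a => psi δ B (a : ℤ)) ?_ ?_
    · exact psi_zero hδ hp hB (fun b hb => (dvd_cb b).trans (cb_dvd hb))
    · intro a ha
      have h3 : psi δ B ((Pool.Agent.N367.LE.cond B - a : ℕ) : ℤ) = psi δ B (-1 * (a : ℤ)) := by
        unfold psi
        refine prod_congr rfl fun b hb => sval_congr ?_
        rw [Nat.cast_sub ha]
        have h4 : (cb b : ℤ) ∣ (Pool.Agent.N367.LE.cond B : ℤ) := by exact_mod_cast cb_dvd hb
        have h5 : (Pool.Agent.N367.LE.cond B : ℤ) - (a : ℤ) - -1 * (a : ℤ) = Pool.Agent.N367.LE.cond B := by ring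
        rw [h5]
        exact h4
      rw [h3, psi_mul, h1, one_mul]
  have h3 : ∑ a ∈ range (Pool.Agent.N367.LE.cond B), psi δ B a = 0 := by
    have h4 := hh_sum hδ B ∅ (disjoint_empty_right B) (by simpa using hp) hB
    simpa [hh] using h4
  rw [h3, mul_zero] at h2
  linarith

theorem SS_none {P : Finset ℕ} (hp : ∀ b ∈ P, b.Prime) (hP : P.Nonempty) :
    2 * SS δ ∅ P = Pool.Agent.N367.LE.cond P * ∏ b ∈ P, (if b = 2 then 4 else (b : ℤ) - 1) := by
  have h1 : SS δ ∅ P = ∑ a ∈ range (Pool.Agent.N367.LE.cond P), (a : ℤ) * ∏ l ∈ P, nd l a := by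
    unfold SS
    rw [empty_union]
    refine sum_congr rfl fun a _ => ?_
    unfold psi
    rw [prod_empty, one_mul]
  rw [h1, refl2 (fun a => ∏ l ∈ P, nd l a)]
  · congr 1
    rw [sum_prod hp (fun b a => nd b a) (fun b _ a => nd_mod b a)]
    exact prod_congr rfl fun b hb => sum_nd (hp b hb)
  · obtain ⟨b, hb⟩ := hP
    refine prod_eq_zero hb ?_
    unfold nd
    rw [if_pos ((dvd_cb b).trans (cb_dvd hb))]
  · intro a ha
    refine prod_congr rfl fun b hb => ?_
    unfold nd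
    have h2 : b ∣ Pool.Agent.N367.LE.cond P - a ↔ b ∣ a := by
      have h3 : b ∣ Pool.Agent.N367.LE.cond P := (dvd_cb b).trans (cb_dvd hb)
      constructor
      · intro h4
        have h5 := (Nat.dvd_sub_iff_right ha h3).1 h4
        exact h5
      · intro h4
        exact Nat.dvd_sub h3 h4
    simp only [h2]

/-- the sum over the common class -/
def WC (δ : ℤ) (P : Finset ℕ) : ℤ :=
  ∑ a ∈ range (Pool.Agent.N367.LE.cond P), (a : ℤ) * ∏ b ∈ P, o1 δ b a

theorem main_id (hδ : δ = 8 ∨ δ = -8) {P : Finset ℕ} (hp : ∀ b ∈ P, b.Prime) :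
    2 ^ P.card * WC δ P = ∑ B ∈ P.powerset, SS δ B (P \ B) := by
  have h1 : ∀ B ∈ P.powerset, SS δ B (P \ B) = ∑ a ∈ range (Pool.Agent.N367.LE.cond P), (a : ℤ) *
      ((∏ b ∈ B, sval δ b (a : ℤ)) * ∏ b ∈ P \ B, nd b a) := by
    intro B hB
    unfold SS psi
    rw [union_sdiff_of_subset (mem_powerset.1 hB)]
  rw [sum_congr rfl h1, sum_comm]
  unfold WC
  rw [mul_sum]
  refine sum_congr rfl fun a _ => ?_
  rw [← mul_sum, ← prod_add]
  have h2 : ∏ b ∈ P, (sval δ b (a : ℤ) + nd b a) = 2 ^ P.card * ∏ b ∈ P, o1 δ b a := by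
    rw [← prod_const, ← prod_mul_distrib]
    refine prod_congr rfl fun b hb => ?_
    rw [two_o1 hδ (hp b hb)]
    ring
  rw [h2]
  ring

/-! ### the first term -/

/-- the number of residues with value one -/
def gb (δ : ℤ) (b : ℕ) : ℤ := ∑ a ∈ range (cb b), o1 δ b a

theorem odd_prod (s : Finset ℕ) (f : ℕ → ℤ) : Odd (∏ b ∈ s, f b) ↔ ∀ b ∈ s, Odd (f b) := by
  induction s using Finset.induction_on with
  | empty => simp
  | insert b s hb ih =>
    rw [prod_insert hb, Int.odd_mul, ih]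
    simp

theorem odd_gb {b : ℕ} (hδ : δ = 8 ∨ δ = -8) (hb : b.Prime) (h2 : b ≠ 2) :
    Odd (gb δ b) ↔ sval δ b (-1) = -1 := by
  have h1 := sum_o1 hδ hb
  rw [if_neg h2] at h1
  have h3 : 2 * gb δ b = (b : ℤ) - 1 := h1
  have hodd : b % 2 = 1 := (hb.eq_two_or_odd).resolve_left h2
  rw [sval_odd h2]
  have h4 : jacobiSym (-1) b = ZMod.χ₄ b := jacobiSym.at_neg_one (Nat.odd_iff.2 hodd)
  rw [h4]
  have h5 : b % 4 = 1 ∨ b % 4 = 3 := by omega
  rcases h5 with h5 | h5
  · rw [ZMod.χ₄_nat_one_mod_four h5]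
    constructor
    · intro h6
      exfalso
      rw [Int.odd_iff] at h6
      omega
    · intro h6
      norm_num at h6
  · rw [ZMod.χ₄_nat_three_mod_four h5]
    constructor
    · intro _
      rfl
    · intro _
      rw [Int.odd_iff]
      omega

theorem odd_cond {Q : Finset ℕ} (hp : ∀ b ∈ Q, b.Prime) (h2 : 2 ∉ Q) :
    Odd (Pool.Agent.N367.LE.cond Q : ℤ) := by
  unfold Pool.Agent.N367.LE.cond
  push_cast
  rw [odd_prod Q (fun b => (cb b : ℤ))]
  intro b hb
  have hb2 : b ≠ 2 := fun h => h2 (h ▸ hb)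
  have h1 : cb b = b := by unfold cb; rw [if_neg hb2]
  rw [h1]
  have hodd : b % 2 = 1 := ((hp b hb).eq_two_or_odd).resolve_left hb2
  rw [Int.odd_iff]
  omega

theorem WC_mod (hδ : δ = 8 ∨ δ = -8) {Q : Finset ℕ} (hp : ∀ b ∈ Q, b.Prime) (h2 : 2 ∉ Q) :
    (8 : ℤ) ∣ WC δ (insert 2 Q) - (if δ = 8 then 8 else 4) * ∏ b ∈ Q, gb δ b := by
  have hpi : ∀ b ∈ insert 2 Q, b.Prime := by
    intro b hb
    rw [mem_insert] at hb
    rcases hb with rfl | hb
    · exact Nat.prime_two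
    · exact hp b hb
  have h1 : ∑ a ∈ range (Pool.Agent.N367.LE.cond (insert 2 Q)), ((a % 8 : ℕ) : ℤ) * ∏ b ∈ insert 2 Q, o1 δ b a =
      (if δ = 8 then 8 else 4) * ∏ b ∈ Q, gb δ b := by
    have h3 : ∀ a, ((a % 8 : ℕ) : ℤ) * ∏ b ∈ insert 2 Q, o1 δ b a =
        ∏ b ∈ insert 2 Q, (if b = 2 then ((a % 8 : ℕ) : ℤ) * o1 δ b a else o1 δ b a) := by
      intro a
      rw [prod_insert h2, prod_insert h2, if_pos rfl, ← mul_assoc]
      congr 1
      refine prod_congr rfl fun b hb => ?_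
      have hb2 : b ≠ 2 := fun h => h2 (h ▸ hb)
      rw [if_neg hb2]
    rw [sum_congr rfl (fun a _ => h3 a),
      sum_prod hpi (fun b a => if b = 2 then ((a % 8 : ℕ) : ℤ) * o1 δ b a else o1 δ b a)]
    · rw [prod_insert h2]
      congr 1
      · rcases hδ with rfl | rfl <;> decide
      · refine prod_congr rfl fun b hb => ?_
        unfold gb
        have hb2 : b ≠ 2 := fun h => h2 (h ▸ hb)
        exact sum_congr rfl fun a _ => by rw [if_neg hb2]
    · intro b _ a
      by_cases hb : b = 2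
      · subst hb
        have h4 : cb 2 = 8 := rfl
        simp only [if_true]
        rw [o1_mod, h4, Nat.mod_mod]
      · simp only [if_neg hb, o1_mod]
  rw [← h1]
  unfold WC
  rw [← sum_sub_distrib]
  refine dvd_sum fun a _ => ?_
  rw [← sub_mul]
  refine Dvd.dvd.mul_right ?_ _
  have h3 : ((a % 8 : ℕ) : ℤ) = (a : ℤ) % 8 := by push_cast; rfl
  rw [h3]
  exact Int.dvd_self_sub_emod

theorem base (hδ : δ = 8 ∨ δ = -8) {P : Finset ℕ} (hp : ∀ b ∈ P, b.Prime) (hP : P.Nonempty) :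
    (c2 P * 2 ^ P.card) ∣ (2 ^ P.card * WC δ P - SS δ ∅ P) -
      c2 P * 2 ^ (P.card - 1) * (if ∀ b ∈ P, sval δ b (-1) = -1 then 1 else 0) := by
  have hcard : 0 < P.card := card_pos.2 hP
  obtain ⟨t, ht⟩ : ∃ t, P.card = t + 1 := ⟨P.card - 1, by omega⟩
  have hSS := SS_none (δ := δ) hp hP
  have hgb : ∀ b ∈ P, (if b = 2 then 4 else (b : ℤ) - 1) = 2 * gb δ b := fun b hb => (sum_o1 hδ (hp b hb)).symm
  rw [prod_congr rfl hgb, prod_mul_distrib, prod_const] at hSS
  rw [ht, Nat.add_sub_cancel] 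
  rw [ht] at hSS
  by_cases h2 : 2 ∈ P
  · have hc : c2 P = 8 := by unfold c2; rw [if_pos h2]
    rw [hc]
    set Q := P.erase 2 with hQ
    have h2Q : 2 ∉ Q := notMem_erase 2 P
    have hPQ : P = insert 2 Q := (insert_erase h2).symm
    have hpQ : ∀ b ∈ Q, b.Prime := fun b hb => hp b (mem_of_mem_erase hb)
    obtain ⟨k, hk⟩ := WC_mod hδ hpQ h2Q
    rw [← hPQ] at hk
    have hg2 : gb δ 2 = 2 := by
      rcases hδ with rfl | rfl <;> decide
    have hcP : (Pool.Agent.N367.LE.cond P : ℤ) = 8 * Pool.Agent.N367.LE.cond Q := by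
      rw [hPQ, cond_insert h2Q]
      have : cb 2 = 8 := rfl
      rw [this]
      push_cast
      ring
    have hprod : ∏ b ∈ P, gb δ b = 2 * ∏ b ∈ Q, gb δ b := by
      rw [hPQ, prod_insert h2Q, hg2]
    rw [hcP, hprod] at hSS
    have hSS' : SS δ ∅ P = 8 * 2 ^ (t + 1) * (Pool.Agent.N367.LE.cond Q * ∏ b ∈ Q, gb δ b) := by
      linarith
    have hall : (∀ b ∈ P, sval δ b (-1) = -1) ↔ (sval δ 2 (-1) = -1 ∧ Odd (∏ b ∈ Q, gb δ b)) := by
      rw [odd_prod]
      constructor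
      · intro h
        exact ⟨h 2 h2, fun b hb => (odd_gb hδ (hpQ b hb) (fun h' => h2Q (h' ▸ hb))).2
          (h b (mem_of_mem_erase hb))⟩
      · rintro ⟨h3, h4⟩ b hb
        rw [hPQ, mem_insert] at hb
        rcases hb with rfl | hb
        · exact h3
        · exact (odd_gb hδ (hpQ b hb) (fun h' => h2Q (h' ▸ hb))).1 (h4 b hb)
    have hW : WC δ P = 8 * k + (if δ = 8 then 8 else 4) * ∏ b ∈ Q, gb δ b := by linarith
    rw [hSS', hW]
    rcases hδ with rfl | rfl
    · have h5 : ¬ (∀ b ∈ P, sval 8 b (-1) = -1) := by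
        intro h
        have := h 2 h2
        revert this
        decide
      rw [if_neg h5, if_pos rfl]
      refine ⟨k + (∏ b ∈ Q, gb 8 b) - Pool.Agent.N367.LE.cond Q * ∏ b ∈ Q, gb 8 b, ?_⟩
      ring
    · have h5 : sval (-8) 2 (-1) = -1 := by decide
      have h6 : (-8 : ℤ) ≠ 8 := by norm_num
      rw [if_neg h6]
      by_cases h7 : Odd (∏ b ∈ Q, gb (-8) b)
      · rw [if_pos (hall.2 ⟨h5, h7⟩)]
        obtain ⟨j, hj⟩ := h7
        refine ⟨k + j - Pool.Agent.N367.LE.cond Q * ∏ b ∈ Q, gb (-8) b, ?_⟩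
        rw [hj]
        ring
      · rw [if_neg (fun h => h7 (hall.1 h).2)]
        rw [Int.not_odd_iff_even] at h7
        obtain ⟨j, hj⟩ := h7
        refine ⟨k + j - Pool.Agent.N367.LE.cond Q * ∏ b ∈ Q, gb (-8) b, ?_⟩
        rw [hj]
        ring
  · have hc : c2 P = 1 := by unfold c2; rw [if_neg h2]
    rw [hc]
    have hoc := odd_cond hp h2
    have hSS' : SS δ ∅ P = 2 ^ t * (Pool.Agent.N367.LE.cond P * ∏ b ∈ P, gb δ b) := by
      have : 2 * SS δ ∅ P = 2 * (2 ^ t * (Pool.Agent.N367.LE.cond P * ∏ b ∈ P, gb δ b)) := by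
        rw [hSS]; ring
      linarith
    have hall : (∀ b ∈ P, sval δ b (-1) = -1) ↔ Odd (Pool.Agent.N367.LE.cond P * ∏ b ∈ P, gb δ b) := by
      rw [Int.odd_mul, odd_prod]
      constructor
      · intro h
        exact ⟨hoc, fun b hb => (odd_gb hδ (hp b hb) (fun h' => h2 (h' ▸ hb))).2 (h b hb)⟩
      · rintro ⟨_, h4⟩ b hb
        exact (odd_gb hδ (hp b hb) (fun h' => h2 (h' ▸ hb))).1 (h4 b hb)
    rw [hSS']
    by_cases h7 : Odd (Pool.Agent.N367.LE.cond P * ∏ b ∈ P, gb δ b)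
    · rw [if_pos (hall.2 h7)]
      obtain ⟨j, hj⟩ := h7
      rw [hj]
      refine ⟨WC δ P - j - 1, ?_⟩
      ring
    · rw [if_neg (fun h => h7 (hall.1 h))]
      rw [Int.not_odd_iff_even] at h7
      obtain ⟨j, hj⟩ := h7
      rw [hj]
      refine ⟨WC δ P - j, ?_⟩
      ring

/-! ### labels -/

theorem c2_cond {P B : Finset ℕ} (hp : ∀ b ∈ P, b.Prime) (hB : B ⊆ P) :
    ∃ m : ℤ, Odd m ∧ c2 B * (Pool.Agent.N367.LE.cond (P \ B) : ℤ) = c2 P * m := by
  by_cases h2B : 2 ∈ B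
  · refine ⟨Pool.Agent.N367.LE.cond (P \ B), ?_, ?_⟩
    · exact odd_cond (fun b hb => hp b (mem_sdiff.1 hb).1) (fun h => (mem_sdiff.1 h).2 h2B)
    · unfold c2
      rw [if_pos h2B, if_pos (hB h2B)]
  · by_cases h2P : 2 ∈ P
    · have h2E : 2 ∈ P \ B := mem_sdiff.2 ⟨h2P, h2B⟩
      refine ⟨Pool.Agent.N367.LE.cond ((P \ B).erase 2), ?_, ?_⟩
      · exact odd_cond (fun b hb => hp b (mem_sdiff.1 (mem_of_mem_erase hb)).1) (notMem_erase 2 _)
      · unfold c2
        rw [if_neg h2B, if_pos h2P, one_mul]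
        conv_lhs => rw [← insert_erase h2E]
        rw [cond_insert (notMem_erase 2 _)]
        have : cb 2 = 8 := rfl
        rw [this]
        push_cast
        ring
    · refine ⟨Pool.Agent.N367.LE.cond (P \ B), ?_, ?_⟩
      · exact odd_cond (fun b hb => hp b (mem_sdiff.1 hb).1) (fun h => h2P (mem_sdiff.1 h).1)
      · unfold c2
        rw [if_neg h2B, if_neg h2P]

theorem prod_sign (s : Finset ℕ) (f : ℕ → Bool) :
    ∏ b ∈ s, (if f b = true then (-1 : ℤ) else 1) =
      if (s.filter (fun b => f b = true)).card % 2 = 1 then -1 else 1 := by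
  rw [prod_ite, prod_const, prod_const_one, mul_one]
  split_ifs with h
  · exact Odd.neg_one_pow (Nat.odd_iff.2 h)
  · exact Even.neg_one_pow (Nat.not_odd_iff_even.1 (fun h' => h (Nat.odd_iff.1 h')))

theorem psi_image {pr : ℕ → ℕ} {B : Finset ℕ} (hinj : Set.InjOn pr B) (f : ℕ → Bool) (x : ℤ)
    (h : ∀ b ∈ B, sval δ (pr b) x = if f b = true then -1 else 1) :
    psi δ (B.image pr) x = if (B.filter (fun b => f b = true)).card % 2 = 1 then -1 else 1 := by
  unfold psi
  rw [prod_image (fun a ha b hb => hinj ha hb), prod_congr rfl h, prod_sign]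

theorem par_term (hδ : δ = 8 ∨ δ = -8) (sb : ℕ → ℕ → Bool) (sg : ℕ → Bool) (pr : ℕ → ℕ)
    (A B : Finset ℕ) (hinj : Set.InjOn pr A) (hpr : ∀ a ∈ A, (pr a).Prime)
    (hsb : ∀ b ∈ A, ∀ l ∈ A, b ≠ l → (sb b l = true ↔ sval δ (pr b) (pr l) = -1))
    (hsg : ∀ b ∈ A, (sg b = true ↔ sval δ (pr b) (-1) = -1))
    (hBA : B ⊆ A) (hB : B.Nonempty)
    (ih : oddB sg B → (c2 (B.image pr) * 2 ^ B.card) ∣
      T δ (B.image pr) - c2 (B.image pr) * 2 ^ (B.card - 1) * (U sb sg B : ℤ)) :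
    (c2 (A.image pr) * 2 ^ A.card) ∣ SS δ (B.image pr) (A.image pr \ B.image pr) -
      c2 (A.image pr) * 2 ^ (A.card - 1) * ((if okB sb sg A B then U sb sg B else 0 : ℕ) : ℤ) := by
  have hinjB : Set.InjOn pr B := hinj.mono (by exact_mod_cast hBA)
  have hP : ∀ b ∈ A.image pr, b.Prime := by
    intro b hb
    rw [mem_image] at hb
    obtain ⟨a, ha, rfl⟩ := hb
    exact hpr a ha
  have hBP : B.image pr ⊆ A.image pr := image_subset_image hBA
  have hE : A.image pr \ B.image pr = (A \ B).image pr := by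
    ext x
    simp only [mem_sdiff, mem_image]
    constructor
    · rintro ⟨⟨a, ha, rfl⟩, h2⟩
      exact ⟨a, ⟨ha, fun h => h2 ⟨a, h, rfl⟩⟩, rfl⟩
    · rintro ⟨a, ⟨ha, hab⟩, rfl⟩
      refine ⟨⟨a, ha, rfl⟩, ?_⟩
      rintro ⟨b, hb, hba⟩
      exact hab (hinj (by exact_mod_cast (hBA hb)) (by exact_mod_cast ha) hba ▸ hb)
  have hinjE : Set.InjOn pr (A \ B : Finset ℕ) := hinj.mono (by exact_mod_cast sdiff_subset)
  have hne : ∀ b ∈ B, ∀ a ∈ A \ B, pr b ≠ pr a := by
    intro b hb a ha h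
    rw [mem_sdiff] at ha
    exact ha.2 (hinj (by exact_mod_cast (hBA hb)) (by exact_mod_cast ha.1) h ▸ hb)
  have hpsi : ∀ a ∈ A \ B, psi δ (B.image pr) (pr a) = if neB sb B a then -1 else 1 := by
    intro a ha
    refine psi_image hinjB (fun b => sb b a) _ fun b hb => ?_
    have ha' := (mem_sdiff.1 ha)
    have h1 : b ≠ a := fun h => ha'.2 (h ▸ hb)
    rcases sval_nat hδ (hpr b (hBA hb)) (pr a) with h2 | ⟨h2, h3⟩
    · exact absurd ((Nat.prime_dvd_prime_iff_eq (hpr b (hBA hb)) (hpr a ha'.1)).1 h2.2) (hne b hb a ha)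
    · split_ifs with h4
      · exact (hsb b (hBA hb) a ha'.1 h1).1 h4
      · exact h2.resolve_right (fun h5 => h4 ((hsb b (hBA hb) a ha'.1 h1).2 h5))
  have hprod : ∏ l ∈ A.image pr \ B.image pr, (1 - psi δ (B.image pr) l) =
      if ∀ a ∈ A \ B, neB sb B a then 2 ^ (A \ B).card else 0 := by
    rw [hE, prod_image (fun a ha b hb => hinjE ha hb)]
    rw [← prod_const, ← prod_ite_zero]
    refine prod_congr rfl fun a ha => ?_
    rw [hpsi a ha]
    split_ifs <;> norm_num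
  rw [SS_eq hδ _ _ disjoint_sdiff (by rw [union_sdiff_of_subset hBP]; exact hP) (hB.image pr), hprod]
  by_cases hall : ∀ a ∈ A \ B, neB sb B a
  · rw [if_pos hall]
    by_cases ho : oddB sg B
    · have hok : okB sb sg A B := ⟨ho, hall⟩
      rw [if_pos hok]
      obtain ⟨k, hk⟩ := ih ho
      obtain ⟨m, ⟨j, hj⟩, hm⟩ := c2_cond hP hBP
      have hcard : A.card = B.card + (A \ B).card := by
        rw [card_sdiff_of_subset hBA]
        have := card_le_card hBA
        omega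
      obtain ⟨s, hs⟩ : ∃ s, B.card = s + 1 := ⟨B.card - 1, by have := card_pos.2 hB; omega⟩
      have hA1 : A.card - 1 = s + (A \ B).card := by omega
      have hA2 : A.card = s + (A \ B).card + 1 := by omega
      rw [hA1, hA2]
      rw [hs] at hk
      rw [Nat.add_sub_cancel] at hk
      generalize (A \ B).card = r
      have hT : T δ (B.image pr) = c2 (B.image pr) * 2 ^ s * (U sb sg B : ℤ) + c2 (B.image pr) * 2 ^ (s + 1) * k := by
        linarith
      rw [hT]
      refine ⟨U sb sg B * j + m * k, ?_⟩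
      have h5 : (Pool.Agent.N367.LE.cond (A.image pr \ B.image pr) : ℤ) * 2 ^ r *
          (c2 (B.image pr) * 2 ^ s * (U sb sg B : ℤ) + c2 (B.image pr) * 2 ^ (s + 1) * k) =
          (c2 (B.image pr) * (Pool.Agent.N367.LE.cond (A.image pr \ B.image pr) : ℤ)) * (2 ^ r * (2 ^ s * U sb sg B + 2 ^ (s + 1) * k)) := by
        ring
      rw [h5, hm, hj]
      ring
    · have hok : ¬ okB sb sg A B := fun h => ho h.1
      rw [if_neg hok]
      have hT : T δ (B.image pr) = 0 := by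
        refine T_even hδ (fun b hb => hP b (hBP hb)) (hB.image pr) ?_
        rw [psi_image hinjB sg (-1) ?_]
        · unfold oddB at ho
          rw [if_neg ho]
        · intro b hb
          split_ifs with h4
          · exact (hsg b (hBA hb)).1 h4
          · exact (sval_neg_one hδ (hpr b (hBA hb))).resolve_right (fun h5 => h4 ((hsg b (hBA hb)).2 h5))
      rw [hT]
      simp
  · have hok : ¬ okB sb sg A B := fun h => hall h.2
    rw [if_neg hall, if_neg hok]
    simp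

/-- **LE/PAR.** -/
theorem par : S_PAR := by
  intro δ sb sg pr A hδ
  induction A using Finset.strongInduction with
  | H A ih =>
    intro hinj hpr hsb hsg hodd
    have hA : A.Nonempty := by
      rw [nonempty_iff_ne_empty]
      rintro rfl
      unfold oddB at hodd
      simp at hodd
    have hP : ∀ b ∈ A.image pr, b.Prime := by
      intro b hb
      rw [mem_image] at hb
      obtain ⟨a, ha, rfl⟩ := hb
      exact hpr a ha
    have hcard : (A.image pr).card = A.card := card_image_of_injOn hinj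
    have hid := main_id hδ hP
    have hb := base hδ hP (hA.image pr)
    rw [hcard] at hid hb
    rw [powerset_image, sum_image (fun a ha b hb => image_injOn_powerset_of_injOn hinj ha hb)] at hid
    rw [← add_sum_erase A.powerset _ (mem_powerset_self A)] at hid
    have hss : A.powerset.erase A = A.ssubsets := rfl
    have h0 : ∅ ∈ A.ssubsets := by
      rw [mem_ssubsets]
      exact empty_ssubset.2 hA
    rw [hss, ← add_sum_erase A.ssubsets _ h0] at hid
    simp only [sdiff_self, bot_eq_empty, SS_empty, image_empty, sdiff_empty] at hid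
    have hterm : ∀ B ∈ A.ssubsets.erase ∅, (c2 (A.image pr) * 2 ^ A.card) ∣
        SS δ (B.image pr) (A.image pr \ B.image pr) -
        c2 (A.image pr) * 2 ^ (A.card - 1) * ((if okB sb sg A B then U sb sg B else 0 : ℕ) : ℤ) := by
      intro B hB
      rw [mem_erase, mem_ssubsets] at hB
      refine par_term hδ sb sg pr A B hinj hpr hsb hsg hB.2.1 (nonempty_iff_ne_empty.2 hB.1) ?_
      intro ho
      exact ih B hB.2 (hinj.mono (by exact_mod_cast hB.2.1)) (fun a ha => hpr a (hB.2.1 ha))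
        (fun b hb l hl => hsb b (hB.2.1 hb) l (hB.2.1 hl)) (fun b hb => hsg b (hB.2.1 hb)) ho
    have hsum := dvd_sum hterm
    rw [sum_sub_distrib, ← mul_sum, ← Nat.cast_sum] at hsum
    have hU : U sb sg A = ((if ∀ b ∈ A, sg b = true then 1 else 0) +
        ∑ B ∈ A.ssubsets.erase ∅, if okB sb sg A B then U sb sg B else 0) % 2 := by
      have hok0 : ¬ okB sb sg A ∅ := by
        rintro ⟨h1, -⟩
        unfold oddB at h1
        simp at h1
      rw [U_eq, ← add_sum_erase A.ssubsets _ h0, if_neg hok0, zero_add]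
    have hallr : (if ∀ b ∈ A.image pr, sval δ b (-1) = -1 then (1 : ℤ) else 0) =
        ((if ∀ b ∈ A, sg b = true then 1 else 0 : ℕ) : ℤ) := by
      have h1 : (∀ b ∈ A.image pr, sval δ b (-1) = -1) ↔ ∀ b ∈ A, sg b = true := by
        constructor
        · intro h b hb
          exact (hsg b hb).2 (h _ (mem_image_of_mem pr hb))
        · intro h b hb
          rw [mem_image] at hb
          obtain ⟨a, ha, rfl⟩ := hb
          exact (hsg a ha).1 (h a ha)
      simp only [h1]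
      split_ifs <;> simp
    rw [hallr] at hb
    rw [hU]
    generalize (∑ B ∈ A.ssubsets.erase ∅, if okB sb sg A B then U sb sg B else 0) = X at hsum ⊢
    generalize (if ∀ b ∈ A, sg b = true then 1 else 0 : ℕ) = Y at hb ⊢
    obtain ⟨t, ht⟩ : ∃ t, A.card = t + 1 := ⟨A.card - 1, by have := card_pos.2 hA; omega⟩
    rw [ht] at hb hsum hid ⊢
    rw [Nat.add_sub_cancel] at hb hsum ⊢
    obtain ⟨k1, hk1⟩ := hb
    obtain ⟨k2, hk2⟩ := hsum
    have hq : ((Y + X : ℕ) : ℤ) = ((Y + X) % 2 : ℕ) + 2 * ((Y + X) / 2 : ℕ) := by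
      exact_mod_cast (Nat.mod_add_div (Y + X) 2).symm
    refine ⟨k1 - k2 - X + ((Y + X) / 2 : ℕ), ?_⟩
    push_cast at hq ⊢
    have e1 : T δ (A.image pr) = 2 ^ (t + 1) * WC δ (A.image pr) - SS δ ∅ (A.image pr) -
        ∑ B ∈ A.ssubsets.erase ∅, SS δ (B.image pr) (A.image pr \ B.image pr) := by
      linarith
    have e2 : T δ (A.image pr) = c2 (A.image pr) * 2 ^ t * (Y : ℤ) + c2 (A.image pr) * 2 ^ (t + 1) * k1 -
        (c2 (A.image pr) * 2 ^ t * (X : ℤ) + c2 (A.image pr) * 2 ^ (t + 1) * k2) := by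
      linarith
    have e3 : (Y : ℤ) = ((Y + X : ℤ) % 2) + 2 * ((Y + X : ℤ) / 2) - X := by linarith
    rw [e2]
    have e4 : c2 (A.image pr) * 2 ^ t * (Y : ℤ) =
        c2 (A.image pr) * 2 ^ t * (((Y + X : ℤ) % 2) + 2 * ((Y + X : ℤ) / 2) - X) := by
      rw [← e3]
    rw [e4]
    ring

end Pool.Agent.N263.LEPAR
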