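import Pool.Agent.H314.CS.Dist

/-!
A non-radial solution of the Liouville equation in the plane with a source at the origin:
`u = log (320000 |x|² / D(x)²)`, `D(x) = 10⁴ + |z² - 1|²`.
-/

set_option autoImplicit false

open MeasureTheory Set Filter Topology Laplacian InnerProductSpace
open scoped ContDiff

namespace Pool.Agent.N263.Liou

abbrev E2 := EuclideanSpace ℝ (Fin 2)

noncomputable def pX : E2 →L[ℝ] ℝ := EuclideanSpace.proj 0

noncomputable def pY : E2 →L[ℝ] ℝ := EuclideanSpace.proj 1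

theorem pX_apply (x : E2) : pX x = x 0 := rfl

theorem pY_apply (x : E2) : pY x = x 1 := rfl

theorem nsq (x : E2) : ‖x‖ ^ 2 = pX x ^ 2 + pY x ^ 2 := by
  rw [EuclideanSpace.norm_sq_eq, Fin.sum_univ_two]
  simp [pX_apply, pY_apply, sq_abs]

/-- `10⁴ + |z² - 1|²` -/
noncomputable def D (x : E2) : ℝ :=
  10 ^ 4 + 1 + (pX x ^ 2 + pY x ^ 2) ^ 2 - 2 * (pX x ^ 2 - pY x ^ 2)

noncomputable def D0 (x : E2) : ℝ := 4 * (pX x ^ 2 + pY x ^ 2) * pX x - 4 * pX x

noncomputable def D1 (x : E2) : ℝ := 4 * (pX x ^ 2 + pY x ^ 2) * pY x + 4 * pY x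

theorem D_ge (x : E2) : 10 ^ 4 + (‖x‖ ^ 2 - 1) ^ 2 ≤ D x := by
  rw [nsq]
  unfold D
  nlinarith [sq_nonneg (pX x), sq_nonneg (pY x)]

theorem D_pos (x : E2) : 0 < D x := by
  have := D_ge x
  nlinarith [sq_nonneg (‖x‖ ^ 2 - 1)]

theorem hX (x : E2) : HasFDerivAt (fun x : E2 => pX x) pX x := pX.hasFDerivAt

theorem hY (x : E2) : HasFDerivAt (fun x : E2 => pY x) pY x := pY.hasFDerivAt

theorem hR (x : E2) : HasFDerivAt (fun x : E2 => pX x ^ 2 + pY x ^ 2)
    ((2 * pX x) • pX + (2 * pY x) • pY) x := by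
  refine (((hX x).pow 2).add ((hY x).pow 2)).congr_fderiv ?_
  ext v
  simp

theorem hQ (x : E2) : HasFDerivAt (fun x : E2 => pX x ^ 2 - pY x ^ 2)
    ((2 * pX x) • pX - (2 * pY x) • pY) x := by
  refine (((hX x).pow 2).sub ((hY x).pow 2)).congr_fderiv ?_
  ext v
  simp

theorem hD (x : E2) : HasFDerivAt D (D0 x • pX + D1 x • pY) x := by
  have h1 := (((hR x).pow 2).const_add (10 ^ 4 + 1)).sub ((hQ x).const_mul 2)
  refine h1.congr_fderiv ?_
  ext v
  simp [D0, D1]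
  ring

theorem hD0 (x : E2) : HasFDerivAt D0
    ((12 * pX x ^ 2 + 4 * pY x ^ 2 - 4) • pX + (8 * pX x * pY x) • pY) x := by
  have h1 := ((((hR x).const_mul 4).mul (hX x))).sub ((hX x).const_mul 4)
  refine h1.congr_fderiv ?_
  ext v
  simp
  ring

theorem hD1 (x : E2) : HasFDerivAt D1
    ((8 * pX x * pY x) • pX + (12 * pY x ^ 2 + 4 * pX x ^ 2 + 4) • pY) x := by
  have h1 := ((((hR x).const_mul 4).mul (hY x))).add ((hY x).const_mul 4)
  refine h1.congr_fderiv ?_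
  ext v
  simp
  ring

/-- the regular part of the solution -/
noncomputable def W (x : E2) : ℝ := Real.log 320000 - 2 * Real.log (D x)

theorem D_smooth : ContDiff ℝ ∞ D := by
  unfold D
  have hx : ContDiff ℝ ∞ fun x : E2 => pX x := pX.contDiff
  have hy : ContDiff ℝ ∞ fun x : E2 => pY x := pY.contDiff
  exact (contDiff_const.add ((hx.pow 2).add (hy.pow 2) |>.pow 2)).sub
    (contDiff_const.mul ((hx.pow 2).sub (hy.pow 2)))

theorem W_smooth : ContDiff ℝ ∞ W :=
  contDiff_const.sub (contDiff_const.mul (D_smooth.log fun x => (D_pos x).ne'))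

theorem hDi (x : E2) : HasFDerivAt (fun x => (D x)⁻¹)
    ((-(D x ^ 2)⁻¹) • (D0 x • pX + D1 x • pY)) x :=
  (hasDerivAt_inv (D_pos x).ne').comp_hasFDerivAt x (hD x)

theorem hW (x : E2) : HasFDerivAt W
    ((-2 * (D0 x * (D x)⁻¹)) • pX + (-2 * (D1 x * (D x)⁻¹)) • pY) x := by
  have h1 := (((hD x).log (D_pos x).ne').const_mul 2).const_sub (Real.log 320000)
  refine h1.congr_fderiv ?_
  ext v
  simp
  ring

theorem lapW (x : E2) : Δ W x = -(320000 * ‖x‖ ^ 2 / D x ^ 2) := by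
  have hp := (D_pos x).ne'
  have hA := ((hD0 x).mul (hDi x)).const_mul (-2)
  have hB := ((hD1 x).mul (hDi x)).const_mul (-2)
  have h2 := (hA.smul (hasFDerivAt_const pX x)).add (hB.smul (hasFDerivAt_const pY x))
  rw [Pool.Agent.H314.CS.LL.laplacian_eq_of_hasFDerivAt (EuclideanSpace.basisFun (Fin 2) ℝ)
    (Eventually.of_forall hW) h2, Fin.sum_univ_two, nsq]
  simp [pX_apply, pY_apply]
  have e0 : D0 x = 4 * (x 0 ^ 2 + x 1 ^ 2) * x 0 - 4 * x 0 := rfl
  have e1 : D1 x = 4 * (x 0 ^ 2 + x 1 ^ 2) * x 1 + 4 * x 1 := rfl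
  have e2 : D x = 10 ^ 4 + 1 + (x 0 ^ 2 + x 1 ^ 2) ^ 2 - 2 * (x 0 ^ 2 - x 1 ^ 2) := rfl
  field_simp
  rw [e0, e1, e2]
  ring

/-- the solution -/
noncomputable def sol (x : E2) : ℝ := 2 * Real.log ‖x‖ + W x

theorem exp_sol {x : E2} (hx : x ≠ 0) : Real.exp (sol x) = 320000 * ‖x‖ ^ 2 / D x ^ 2 := by
  have h0 : 0 < ‖x‖ := norm_pos_iff.2 hx
  have hp := D_pos x
  have e : sol x = Real.log (320000 * ‖x‖ ^ 2 / D x ^ 2) := by
    unfold sol W
    rw [Real.log_div (by positivity) (by positivity), Real.log_mul (by norm_num) (by positivity),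
      Real.log_pow, Real.log_pow]
    push_cast
    ring
  rw [e, Real.exp_log (by positivity)]

theorem sol_lt {x : E2} (hx : x ≠ 0) : sol x < -1 := by
  rw [← Real.exp_lt_exp, exp_sol hx]
  have h1 := D_ge x
  have h2 := Real.exp_neg_one_gt_d9
  have hp := D_pos x
  refine lt_trans ?_ h2
  set a := ‖x‖ ^ 2 - 1 with ha
  have e : ‖x‖ ^ 2 = 1 + a := by rw [ha]; ring
  rw [e, div_lt_iff₀ (by positivity)]
  have h3 : 10 ^ 4 * (10 ^ 4 + a ^ 2) ≤ D x ^ 2 := by nlinarith [sq_nonneg a]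
  nlinarith [sq_nonneg (a - 44)]

theorem sol_smooth : ContDiffOn ℝ ∞ sol {0}ᶜ := by
  intro x hx
  have hx' : x ≠ 0 := hx
  have h1 : ContDiffAt ℝ ∞ (fun x : E2 => Real.log ‖x‖) x :=
    (contDiffAt_norm ℝ hx').log (norm_ne_zero_iff.2 hx')
  exact ((contDiffAt_const.mul h1).add W_smooth.contDiffAt).contDiffWithinAt

theorem sol_locInt : LocallyIntegrable sol := by
  have h1 := Pool.Agent.H314.CS.locInt_log 0
  simp only [sub_zero] at h1
  have h2 : LocallyIntegrable W := W_smooth.continuous.locallyIntegrable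
  exact (h1.smul (2 : ℝ)).add h2

theorem sol_eqn {φ : E2 → ℝ} (hφ : ContDiff ℝ ∞ φ) (hc : HasCompactSupport φ) :
    Integrable (fun x => sol x * Δ φ x) ∧
    ∫ x, sol x * Δ φ x = -(∫ x, 320000 * ‖x‖ ^ 2 / D x ^ 2 * φ x) + 4 * Real.pi * φ 0 := by
  have hφ2 : ContDiff ℝ 2 φ := by
    have := contDiff_infty.1 hφ 2
    exact_mod_cast this
  have hW2 : ContDiff ℝ 2 W := by
    have := contDiff_infty.1 W_smooth 2
    exact_mod_cast this
  have hΔc := Pool.Agent.H314.CS.LL.continuous_laplacian hφ2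
  have hΔs := Pool.Agent.H314.CS.LL.hasCompactSupport_laplacian hφ2 hc
  refine ⟨sol_locInt.integrable_smul_right_of_hasCompactSupport hΔc hΔs, ?_⟩
  have h := Pool.Agent.H314.CS.dist_identity (N := 1) (fun _ => 0) (fun _ => 2) W φ hW2 hφ2 hc
  simp only [Fin.sum_univ_one, sub_zero] at h
  have e : ∀ x, sol x = 2 * Real.log ‖x‖ + W x := fun x => rfl
  simp only [e, h, lapW, neg_mul, integral_neg]
  ring

theorem s_cont : Continuous fun x : E2 => 320000 * ‖x‖ ^ 2 / D x ^ 2 := by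
  refine Continuous.div (by fun_prop) (D_smooth.continuous.pow 2) fun x => ?_
  exact pow_ne_zero _ (D_pos x).ne'

theorem nonradial : ∃ x y : E2, x ≠ 0 ∧ ‖x‖ = ‖y‖ ∧ sol x ≠ sol y := by
  refine ⟨EuclideanSpace.single 0 1, EuclideanSpace.single 1 1, ?_, ?_, ?_⟩
  · intro h
    have := congrArg (fun v : E2 => v 0) h
    simp at this
  · simp
  · have h1 : D (EuclideanSpace.single 0 1) = 10 ^ 4 := by
      simp [D, pX_apply, pY_apply]
      norm_num
    have h2 : D (EuclideanSpace.single 1 1) = 10 ^ 4 + 4 := by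
      simp [D, pX_apply, pY_apply]
      norm_num
    intro h
    unfold sol W at h
    rw [h1, h2] at h
    have h3 : Real.log (10 ^ 4 : ℝ) < Real.log (10 ^ 4 + 4) :=
      Real.log_lt_log (by norm_num) (by norm_num)
    simp at h
    simp at h3
    linarith

end Pool.Agent.N263.Liou
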