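import Pool.Agent.N979.P1.Stm

/-!
PROJECT P1 (helper979), part COMA: the abstract comass inequality.
-/

set_option autoImplicit false

open MeasureTheory Filter Topology

namespace Pool.Agent.N263.P1_COMA

open Pool.Agent.H241R3.FV Pool.Agent.N526.CP Pool.Agent.N979.P1

/-! ### Symmetric matrices with two rows -/

theorem psd1 {α β γ p q r : ℝ} (hα : 0 ≤ α) (hγ : 0 ≤ γ) (hd : 0 < α * γ - β ^ 2)
    (hpr : 0 ≤ p * r - q ^ 2) (ht : 0 ≤ α * p + 2 * β * q + γ * r) : 0 ≤ p := by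
  have hα' : 0 < α := by
    by_contra h
    have h1 : α = 0 := le_antisymm (not_lt.mp h) hα
    rw [h1] at hd
    nlinarith [sq_nonneg β]
  by_contra hp
  rw [not_le] at hp
  have hr : r ≤ 0 := by
    by_contra h
    rw [not_le] at h
    have h1 := mul_neg_of_neg_of_pos hp h
    nlinarith [sq_nonneg q]
  have hap : α * p < 0 := mul_neg_of_pos_of_neg hα' hp
  have hgr : γ * r ≤ 0 := mul_nonpos_of_nonneg_of_nonpos hγ hr
  have h1 : -(α * p + γ * r) ≤ 2 * β * q := by linarith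
  have h2 : 0 ≤ -(α * p + γ * r) := by linarith
  have h3 := mul_self_le_mul_self h2 h1
  have h4 : q ^ 2 * (α * γ - β ^ 2) ≤ 0 := by
    have h5 : α * γ * (q ^ 2) ≤ α * γ * (p * r) :=
      mul_le_mul_of_nonneg_left (by linarith) (mul_nonneg hα hγ)
    nlinarith [sq_nonneg (α * p - γ * r)]
  have h5 : q ^ 2 = 0 := by
    have h6 : 0 ≤ q ^ 2 := sq_nonneg q
    by_contra h7
    have h8 : 0 < q ^ 2 := lt_of_le_of_ne h6 (Ne.symm h7)
    have := mul_pos h8 hd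
    linarith
  have h6 : q = 0 := by simpa using h5
  rw [h6] at ht
  linarith

theorem form_nonneg {p q r : ℝ} (hp : 0 ≤ p) (hr : 0 ≤ r) (hpr : 0 ≤ p * r - q ^ 2) (u v : ℝ) :
    0 ≤ p * u ^ 2 + 2 * q * (u * v) + r * v ^ 2 := by
  rcases hp.eq_or_lt with h | h
  · have h1 : q ^ 2 = 0 := by
      rw [← h] at hpr
      nlinarith [sq_nonneg q]
    have h2 : q = 0 := by simpa using h1
    rw [← h, h2]
    have := mul_nonneg hr (sq_nonneg v)
    linarith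
  · have h1 : 0 ≤ p * (p * u ^ 2 + 2 * q * (u * v) + r * v ^ 2) := by
      nlinarith [sq_nonneg (p * u + q * v), mul_nonneg hpr (sq_nonneg v)]
    exact nonneg_of_mul_nonneg_right h1 h

theorem keyM {α β γ X0 X1 X2 : ℝ} (hα : 0 ≤ α) (hγ : 0 ≤ γ) (hd : 0 ≤ α * γ - β ^ 2)
    (hT : X0 * α + 2 * (X1 * β) + X2 * γ ≤ 8)
    (hdet : 0 ≤ 16 - 4 * (X0 * α + 2 * (X1 * β) + X2 * γ) +
      (X0 * X2 - X1 ^ 2) * (α * γ - β ^ 2)) (x y : ℝ) :
    X0 * (α * x + β * y) ^ 2 + 2 * X1 * ((α * x + β * y) * (β * x + γ * y)) +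
      X2 * (β * x + γ * y) ^ 2 ≤ 4 * (α * x ^ 2 + 2 * β * (x * y) + γ * y ^ 2) := by
  rcases hd.eq_or_lt with h | h
  · have h1 := form_nonneg hα hγ hd x y
    rw [← h, mul_zero, add_zero] at hdet
    have h2 : X0 * (α * x + β * y) ^ 2 + 2 * X1 * ((α * x + β * y) * (β * x + γ * y)) +
        X2 * (β * x + γ * y) ^ 2 = (X0 * α + 2 * (X1 * β) + X2 * γ) *
        (α * x ^ 2 + 2 * β * (x * y) + γ * y ^ 2) -
        (α * γ - β ^ 2) * (X2 * x ^ 2 - 2 * X1 * (x * y) + X0 * y ^ 2) := by ring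
    rw [h2, ← h, zero_mul, sub_zero]
    exact mul_le_mul_of_nonneg_right (by linarith) h1
  · set D := α * γ - β ^ 2 with hD
    have h1 : 0 ≤ (4 * γ - D * X0) * (4 * α - D * X2) - (-(4 * β + D * X1)) ^ 2 := by
      have h2 : (4 * γ - D * X0) * (4 * α - D * X2) - (-(4 * β + D * X1)) ^ 2 =
          D * (16 - 4 * (X0 * α + 2 * (X1 * β) + X2 * γ) + (X0 * X2 - X1 ^ 2) * D) := by
        rw [hD]; ring
      rw [h2]
      exact mul_nonneg h.le hdet
    have h3 : α * (4 * γ - D * X0) + 2 * β * (-(4 * β + D * X1)) + γ * (4 * α - D * X2) =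
        D * (8 - (X0 * α + 2 * (X1 * β) + X2 * γ)) := by
      rw [hD]; ring
    have h4 : 0 ≤ α * (4 * γ - D * X0) + 2 * β * (-(4 * β + D * X1)) +
        γ * (4 * α - D * X2) := by
      rw [h3]
      exact mul_nonneg h.le (by linarith)
    have h5 := psd1 hα hγ h h1 h4
    have h6 := psd1 (α := γ) (β := β) (γ := α) (p := 4 * α - D * X2) (q := -(4 * β + D * X1))
      (r := 4 * γ - D * X0) hγ hα (by rw [mul_comm]; exact h) (by rw [mul_comm]; exact h1)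
      (by linarith)
    have h7 := form_nonneg h5 h6 h1 (α * x + β * y) (β * x + γ * y)
    have h8 : (4 * γ - D * X0) * (α * x + β * y) ^ 2 +
        2 * (-(4 * β + D * X1)) * ((α * x + β * y) * (β * x + γ * y)) +
        (4 * α - D * X2) * (β * x + γ * y) ^ 2 =
        D * (4 * (α * x ^ 2 + 2 * β * (x * y) + γ * y ^ 2) -
          (X0 * (α * x + β * y) ^ 2 + 2 * X1 * ((α * x + β * y) * (β * x + γ * y)) +
            X2 * (β * x + γ * y) ^ 2)) := by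
      rw [hD]; ring
    rw [h8] at h7
    have h9 := nonneg_of_mul_nonneg_right h7 h
    linarith

theorem main : S_COMA := by
  intro Ω _ μ _ φ ψ l hφ hψ hl hC hlb hmix hlint X Y hX hY hT hdet a ha ha1
  obtain ⟨C, hC⟩ := hC
  obtain ⟨l₀, l₁, hl0, hl1⟩ := hlb
  obtain ⟨u, hu0, hu1, hu2, hu3⟩ : ∃ u : Fin 4 → Ω → ℝ, u 0 = φ 0 ∧ u 1 = φ 1 ∧ u 2 = ψ 0 ∧
      u 3 = ψ 1 := ⟨![φ 0, φ 1, ψ 0, ψ 1], rfl, rfl, rfl, rfl⟩
  have hum : ∀ p, Measurable (u p) := by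
    intro p
    fin_cases p
    · exact hu0 ▸ hφ 0
    · exact hu1 ▸ hφ 1
    · exact hu2 ▸ hψ 0
    · exact hu3 ▸ hψ 1
  have hub : ∀ p ω, |u p ω| ≤ C := by
    intro p ω
    fin_cases p
    · exact hu0 ▸ (hC 0 ω).1
    · exact hu1 ▸ (hC 1 ω).1
    · exact hu2 ▸ (hC 0 ω).2
    · exact hu3 ▸ (hC 1 ω).2
  have hlpos : ∀ ω, 0 < l ω := fun ω => lt_of_lt_of_le hl0 (hl1 ω).1
  have hG : ∀ p q, Integrable (fun ω => u p ω * u q ω / l ω) μ := by
    intro p q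
    refine Integrable.of_bound (((hum p).mul (hum q)).div hl).aestronglyMeasurable (C * C / l₀)
      (ae_of_all _ fun ω => ?_)
    rw [Real.norm_eq_abs, abs_div, abs_mul, abs_of_pos (hlpos ω)]
    have h0 : 0 ≤ C := (abs_nonneg _).trans (hub p ω)
    exact div_le_div₀ (mul_nonneg h0 h0) (mul_le_mul (hub p ω) (hub q ω) (abs_nonneg _) h0) hl0
      (hl1 ω).1
  have ham : ∀ k : Fin 2, Measurable fun ω => a ω k := fun k =>
    (EuclideanSpace.proj (𝕜 := ℝ) k).continuous.measurable.comp ha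
  have hak : ∀ k : Fin 2, ∀ᵐ ω ∂μ, |a ω k| ≤ 1 := by
    intro k
    filter_upwards [ha1] with ω h
    exact (PiLp.norm_apply_le (a ω) k).trans h
  have hI : ∀ k p, Integrable (fun ω => a ω k * u p ω) μ := by
    intro k p
    refine Integrable.of_bound ((ham k).mul (hum p)).aestronglyMeasurable (1 * C) ?_
    filter_upwards [hak k] with ω h
    rw [Real.norm_eq_abs, abs_mul]
    exact mul_le_mul h (hub p ω) (abs_nonneg _) zero_le_one
  have hlI : Integrable l μ := by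
    refine Integrable.of_bound hl.aestronglyMeasurable l₁ (ae_of_all _ fun ω => ?_)
    rw [Real.norm_eq_abs, abs_of_pos (hlpos ω)]
    exact (hl1 ω).2
  obtain ⟨G, hGd⟩ : ∃ G : Fin 4 → Fin 4 → ℝ, ∀ p q, G p q = ∫ ω, u p ω * u q ω / l ω ∂μ :=
    ⟨_, fun _ _ => rfl⟩
  obtain ⟨m, hmd⟩ : ∃ m : Fin 2 → Fin 4 → ℝ, ∀ k p, m k p = ∫ ω, a ω k * u p ω ∂μ :=
    ⟨_, fun _ _ => rfl⟩
  have hquad : ∀ (β : Fin 4 → ℝ) (ω : Ω), ∑ p, ∑ q, β p * β q * (u p ω * u q ω / l ω) =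
      (∑ p, β p * u p ω) ^ 2 / l ω := by
    intro β ω
    rw [sq, Finset.sum_mul_sum, Finset.sum_div]
    refine Finset.sum_congr rfl fun p _ => ?_
    rw [Finset.sum_div]
    refine Finset.sum_congr rfl fun q _ => ?_
    ring
  have hGint : ∀ β : Fin 4 → ℝ, Integrable
      (fun ω => ∑ p, ∑ q, β p * β q * (u p ω * u q ω / l ω)) μ := fun β =>
    integrable_finsetSum _ fun p _ => integrable_finsetSum _ fun q _ => (hG p q).const_mul _
  have hGval : ∀ β : Fin 4 → ℝ, ∫ ω, ∑ p, ∑ q, β p * β q * (u p ω * u q ω / l ω) ∂μ =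
      ∑ p, ∑ q, β p * β q * G p q := by
    intro β
    rw [integral_finsetSum _ fun p _ => integrable_finsetSum _ fun q _ => (hG p q).const_mul _]
    refine Finset.sum_congr rfl fun p _ => ?_
    rw [integral_finsetSum _ fun q _ => (hG p q).const_mul _]
    refine Finset.sum_congr rfl fun q _ => ?_
    rw [integral_const_mul, hGd]
  have hmint : ∀ (k : Fin 2) (β : Fin 4 → ℝ), Integrable
      (fun ω => 2 * ∑ p, β p * (a ω k * u p ω)) μ := fun k β =>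
    (integrable_finsetSum _ fun p _ => (hI k p).const_mul _).const_mul _
  have hmval : ∀ (k : Fin 2) (β : Fin 4 → ℝ), ∫ ω, 2 * ∑ p, β p * (a ω k * u p ω) ∂μ =
      2 * ∑ p, β p * m k p := by
    intro k β
    rw [integral_const_mul, integral_finsetSum _ fun p _ => (hI k p).const_mul _]
    congr 1
    refine Finset.sum_congr rfl fun p _ => ?_
    rw [integral_const_mul, hmd]
  -- Bessel's inequality
  have hB : ∀ β : Fin 2 → Fin 4 → ℝ,
      (2 * ∑ p, β 0 p * m 0 p - ∑ p, ∑ q, β 0 p * β 0 q * G p q) +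
      (2 * ∑ p, β 1 p * m 1 p - ∑ p, ∑ q, β 1 p * β 1 q * G p q) ≤ 1 := by
    intro β
    have hint : ∀ k : Fin 2, Integrable (fun ω => 2 * ∑ p, β k p * (a ω k * u p ω) -
        ∑ p, ∑ q, β k p * β k q * (u p ω * u q ω / l ω)) μ := fun k =>
      (hmint k (β k)).sub (hGint (β k))
    have h1 : ∫ ω, ((2 * ∑ p, β 0 p * (a ω 0 * u p ω) -
        ∑ p, ∑ q, β 0 p * β 0 q * (u p ω * u q ω / l ω)) +
        (2 * ∑ p, β 1 p * (a ω 1 * u p ω) -
        ∑ p, ∑ q, β 1 p * β 1 q * (u p ω * u q ω / l ω))) ∂μ =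
        (2 * ∑ p, β 0 p * m 0 p - ∑ p, ∑ q, β 0 p * β 0 q * G p q) +
        (2 * ∑ p, β 1 p * m 1 p - ∑ p, ∑ q, β 1 p * β 1 q * G p q) := by
      rw [integral_add (hint 0) (hint 1), integral_sub (hmint 0 (β 0)) (hGint (β 0)),
        integral_sub (hmint 1 (β 1)) (hGint (β 1)), hmval, hmval, hGval, hGval]
    rw [← h1]
    refine le_trans (integral_mono_ae ((hint 0).add (hint 1)) hlI ?_) hlint
    filter_upwards [ha1] with ω hω
    have e1 : ∀ k : Fin 2, ∑ p, β k p * (a ω k * u p ω) = a ω k * ∑ p, β k p * u p ω := by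
      intro k
      rw [Finset.mul_sum]
      refine Finset.sum_congr rfl fun p _ => ?_
      ring
    have e3 : (a ω 0) ^ 2 + (a ω 1) ^ 2 ≤ 1 := by
      have h2 : ‖a ω‖ ^ 2 ≤ 1 := by
        have := norm_nonneg (a ω)
        nlinarith
      rw [EuclideanSpace.real_norm_sq_eq, Fin.sum_univ_two] at h2
      exact h2
    simp only [e1, hquad]
    have hp := hlpos ω
    have e4 : ∀ A H : ℝ, 2 * (A * H) - H ^ 2 / l ω = l ω * A ^ 2 - (l ω * A - H) ^ 2 / l ω := by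
      intro A H
      field_simp
      ring
    rw [e4, e4]
    have e5 : ∀ A H : ℝ, 0 ≤ (l ω * A - H) ^ 2 / l ω := fun A H =>
      div_nonneg (sq_nonneg _) hp.le
    have e6 := e5 (a ω 0) (∑ p, β 0 p * u p ω)
    have e7 := e5 (a ω 1) (∑ p, β 1 p * u p ω)
    nlinarith
  -- the matrix `G`
  have hGn : ∀ β : Fin 4 → ℝ, 0 ≤ ∑ p, ∑ q, β p * β q * G p q := by
    intro β
    rw [← hGval]
    refine integral_nonneg fun ω => ?_
    simp only [hquad]
    exact div_nonneg (sq_nonneg _) (hlpos ω).le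
  have hmix' : ∀ i j, ∫ ω, ψ j ω * φ i ω / l ω ∂μ = 0 := by
    intro i j
    rw [← hmix i j]
    congr 1
    funext ω
    rw [mul_comm]
  have hX' : ∀ i j, X i j = X j i := by
    intro i j
    rw [hX, hX]
    congr 1
    funext ω
    rw [mul_comm]
  have hY' : ∀ i j, Y i j = Y j i := by
    intro i j
    rw [hY, hY]
    congr 1
    funext ω
    rw [mul_comm]
  have g00 : G 0 0 = X 0 0 := by rw [hGd, hX, hu0]
  have g01 : G 0 1 = X 0 1 := by rw [hGd, hX, hu0, hu1]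
  have g10 : G 1 0 = X 0 1 := by rw [hGd, hX' 0 1, hX, hu0, hu1]
  have g11 : G 1 1 = X 1 1 := by rw [hGd, hX, hu1]
  have g22 : G 2 2 = Y 0 0 := by rw [hGd, hY, hu2]
  have g23 : G 2 3 = Y 0 1 := by rw [hGd, hY, hu2, hu3]
  have g32 : G 3 2 = Y 0 1 := by rw [hGd, hY' 0 1, hY, hu2, hu3]
  have g33 : G 3 3 = Y 1 1 := by rw [hGd, hY, hu3]
  have g02 : G 0 2 = 0 := by rw [hGd, hu0, hu2]; exact hmix 0 0
  have g03 : G 0 3 = 0 := by rw [hGd, hu0, hu3]; exact hmix 0 1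
  have g12 : G 1 2 = 0 := by rw [hGd, hu1, hu2]; exact hmix 1 0
  have g13 : G 1 3 = 0 := by rw [hGd, hu1, hu3]; exact hmix 1 1
  have g20 : G 2 0 = 0 := by rw [hGd, hu0, hu2]; exact hmix' 0 0
  have g30 : G 3 0 = 0 := by rw [hGd, hu0, hu3]; exact hmix' 0 1
  have g21 : G 2 1 = 0 := by rw [hGd, hu1, hu2]; exact hmix' 1 0
  have g31 : G 3 1 = 0 := by rw [hGd, hu1, hu3]; exact hmix' 1 1
  simp only [Fin.sum_univ_four, g00, g01, g10, g11, g22, g23, g32, g33, g02, g03, g12, g13, g20,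
    g30, g21, g31] at hB hGn
  -- `Y` is positive semidefinite
  have hYf : ∀ s t : ℝ, 0 ≤ Y 0 0 * s ^ 2 + 2 * Y 0 1 * (s * t) + Y 1 1 * t ^ 2 := by
    intro s t
    have h1 := hGn ![0, 0, s, t]
    simp only [Matrix.cons_val_zero, Matrix.cons_val_one, Matrix.cons_val] at h1
    linarith
  have hα : 0 ≤ Y 0 0 := by have := hYf 1 0; linarith
  have hγ : 0 ≤ Y 1 1 := by have := hYf 0 1; linarith
  have hd : 0 ≤ Y 0 0 * Y 1 1 - Y 0 1 ^ 2 := by
    rcases hγ.eq_or_lt with h | h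
    · have h1 := hYf 1 (-(Y 0 0 + 1) * Y 0 1)
      rw [← h] at h1 ⊢
      by_contra h2
      have h3 : 0 < Y 0 1 ^ 2 := by linarith
      by_cases h4 : 1 ≤ Y 0 1 ^ 2
      · nlinarith
      · have h5 := hYf (Y 0 1 ^ 2) (-(Y 0 0 + 1) * Y 0 1)
        rw [← h] at h5
        nlinarith [mul_pos h3 h3]
    · have h1 := hYf (Y 1 1) (-(Y 0 1))
      have h2 : 0 ≤ Y 1 1 * (Y 0 0 * Y 1 1 - Y 0 1 ^ 2) := by nlinarith
      exact nonneg_of_mul_nonneg_right h2 h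
  -- the components
  have hcomp : ∀ (f : Ω → ℝ), Measurable f → (∀ ω, |f ω| ≤ C) → ∀ k : Fin 2,
      (∫ ω, f ω • a ω ∂μ) k = ∫ ω, a ω k * f ω ∂μ := by
    intro f hf hfC k
    have hint : Integrable (fun ω => f ω • a ω) μ := by
      refine Integrable.of_bound (hf.smul ha).aestronglyMeasurable (C * 1) ?_
      filter_upwards [ha1] with ω h
      rw [norm_smul, Real.norm_eq_abs]
      exact mul_le_mul (hfC ω) h (norm_nonneg _) ((abs_nonneg _).trans (hfC ω))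
    have h1 := (EuclideanSpace.proj k : E 2 →L[ℝ] ℝ).integral_comp_comm hint
    have h2 : (∫ ω, f ω • a ω ∂μ) k =
        (EuclideanSpace.proj k : E 2 →L[ℝ] ℝ) (∫ ω, f ω • a ω ∂μ) := rfl
    rw [h2, ← h1]
    congr 1
    funext ω
    show f ω * a ω k = a ω k * f ω
    ring
  have c0 : ∀ k : Fin 2, (∫ ω, φ 0 ω • a ω ∂μ) k = m k 0 := fun k => by
    rw [hcomp _ (hφ 0) (fun ω => (hC 0 ω).1), hmd, hu0]
  have c1 : ∀ k : Fin 2, (∫ ω, φ 1 ω • a ω ∂μ) k = m k 1 := fun k => by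
    rw [hcomp _ (hφ 1) (fun ω => (hC 1 ω).1), hmd, hu1]
  have c2 : ∀ k : Fin 2, (∫ ω, ψ 0 ω • a ω ∂μ) k = m k 2 := fun k => by
    rw [hcomp _ (hψ 0) (fun ω => (hC 0 ω).2), hmd, hu2]
  have c3 : ∀ k : Fin 2, (∫ ω, ψ 1 ω • a ω ∂μ) k = m k 3 := fun k => by
    rw [hcomp _ (hψ 1) (fun ω => (hC 1 ω).2), hmd, hu3]
  unfold dt
  rw [c0, c0, c1, c1, c2, c2, c3, c3]
  have M0 := keyM hα hγ hd hT hdet (m 0 0) (m 0 1)
  have M1 := keyM hα hγ hd hT hdet (m 1 0) (m 1 1)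
  rw [abs_le]
  constructor
  · have h1 := hB ![![(Y 0 0 * m 0 0 + Y 0 1 * m 0 1) / 4, (Y 0 1 * m 0 0 + Y 1 1 * m 0 1) / 4,
        m 1 0 / 2, m 1 1 / 2],
      ![(Y 0 0 * m 1 0 + Y 0 1 * m 1 1) / 4, (Y 0 1 * m 1 0 + Y 1 1 * m 1 1) / 4,
        -(m 0 0 / 2), -(m 0 1 / 2)]]
    simp only [Matrix.cons_val_zero, Matrix.cons_val_one, Matrix.cons_val] at h1
    linarith
  · have h1 := hB ![![(Y 0 0 * m 0 0 + Y 0 1 * m 0 1) / 4, (Y 0 1 * m 0 0 + Y 1 1 * m 0 1) / 4,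
        -(m 1 0 / 2), -(m 1 1 / 2)],
      ![(Y 0 0 * m 1 0 + Y 0 1 * m 1 1) / 4, (Y 0 1 * m 1 0 + Y 1 1 * m 1 1) / 4,
        m 0 0 / 2, m 0 1 / 2]]
    simp only [Matrix.cons_val_zero, Matrix.cons_val_one, Matrix.cons_val] at h1
    linarith

end Pool.Agent.N263.P1_COMA
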