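import Pool.Agent.N709.ST.Stm

/-! ST/SUBMOD (helper263 for helper709): submodularity of the predimension. -/

set_option autoImplicit false

namespace Pool.Agent.N263.STSUBMOD

open Finset Pool.Agent.N709.ST

theorem submod : Pool.Agent.N709.ST.Submod := by
  intro s t hst c Y Z
  have e1 : (Y ∪ Z).card + (Y ∩ Z).card = Y.card + Z.card := card_union_add_card_inter Y Z
  have e2 : (Y.powersetCard t) ∩ (Z.powersetCard t) = (Y ∩ Z).powersetCard t := by
    ext S
    simp only [mem_inter, mem_powersetCard, subset_inter_iff]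
    tauto
  have e3 : (Y.powersetCard t) ∪ (Z.powersetCard t) ⊆ (Y ∪ Z).powersetCard t :=
    union_subset (powersetCard_mono subset_union_left) (powersetCard_mono subset_union_right)
  have e4 := card_union_add_card_inter (Y.powersetCard t) (Z.powersetCard t)
  rw [e2, card_powersetCard, card_powersetCard, card_powersetCard] at e4
  have e5 := card_sdiff_add_card_eq_card e3
  rw [card_powersetCard] at e5
  have e6 : cs t c (Y ∪ Z) = (cs t c Y ∪ cs t c Z) ∪
      (((Y ∪ Z).powersetCard t) \ ((Y.powersetCard t) ∪ (Z.powersetCard t))).image c := by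
    unfold cs
    rw [← image_union, ← image_union, union_sdiff_of_subset e3]
  have e7 : (cs t c (Y ∪ Z)).card ≤ (cs t c Y ∪ cs t c Z).card +
      (((Y ∪ Z).powersetCard t) \ ((Y.powersetCard t) ∪ (Z.powersetCard t))).card := by
    rw [e6]
    exact (card_union_le _ _).trans (Nat.add_le_add_left card_image_le _)
  have e8 := card_union_add_card_inter (cs t c Y) (cs t c Z)
  have e9 : (cs t c (Y ∩ Z)).card ≤ (cs t c Y ∩ cs t c Z).card := by
    refine card_le_card ?_
    unfold cs
    rw [← e2]
    exact image_inter_subset _ _ _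
  unfold dl
  have h1 : (0 : ℤ) ≤ (t : ℤ) - s := by
    have : (s : ℤ) ≤ t := by exact_mod_cast hst
    linarith
  have h2 : ((Y.card.choose t : ℤ) - ((cs t c Y).card : ℤ)) + ((Z.card.choose t : ℤ) - ((cs t c Z).card : ℤ)) ≤
      (((Y ∪ Z).card.choose t : ℤ) - ((cs t c (Y ∪ Z)).card : ℤ)) +
        (((Y ∩ Z).card.choose t : ℤ) - ((cs t c (Y ∩ Z)).card : ℤ)) := by
    have f1 : ((Y ∪ Z).card.choose t : ℤ) + (cs t c Y).card + (cs t c Z).card + (Y ∩ Z).card.choose t ≥
        (cs t c (Y ∪ Z)).card + (cs t c (Y ∩ Z)).card + Y.card.choose t + Z.card.choose t := by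
      have : (cs t c (Y ∪ Z)).card + (cs t c (Y ∩ Z)).card + Y.card.choose t + Z.card.choose t ≤
        (Y ∪ Z).card.choose t + (cs t c Y).card + (cs t c Z).card + (Y ∩ Z).card.choose t := by omega
      exact_mod_cast this
    linarith
  have h3 := mul_le_mul_of_nonneg_left h2 h1
  have h4 : ((Y ∪ Z).card : ℤ) + ((Y ∩ Z).card : ℤ) = (Y.card : ℤ) + (Z.card : ℤ) := by exact_mod_cast e1
  linarith

end Pool.Agent.N263.STSUBMOD
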