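import Mathlib

/-!
Travelling square waves in the plane: integration by parts along the direction of propagation and
weak-star convergence to the mean value.
-/

set_option autoImplicit false

open MeasureTheory Filter Topology Set

namespace Pool.Agent.N263.Wave

/-- A square wave with period one. -/
noncomputable def chi (y : ℝ) : ℝ := if Int.fract y < 1 / 2 then 1 else 0

theorem chi_half (y : ℝ) : chi (y + 1 / 2) = 1 - chi y := by
  unfold chi
  have h0 := Int.fract_nonneg y
  have h1 := Int.fract_lt_one y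
  by_cases h : Int.fract y < 1 / 2
  · have h2 : Int.fract (y + 1 / 2) = Int.fract y + 1 / 2 := by
      rw [Int.fract_eq_iff]
      refine ⟨by linarith, by linarith, ⌊y⌋, ?_⟩
      have := Int.self_sub_floor y
      linarith
    rw [if_pos h, if_neg (by rw [h2]; linarith)]
    ring
  · have h2 : Int.fract (y + 1 / 2) = Int.fract y - 1 / 2 := by
      rw [Int.fract_eq_iff]
      refine ⟨by linarith, by linarith, ⌊y⌋ + 1, ?_⟩
      have := Int.self_sub_floor y
      push_cast
      linarith
    rw [if_neg h, if_pos (by rw [h2]; linarith)]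
    ring

theorem chi_cases (y : ℝ) : chi y = 0 ∨ chi y = 1 := by
  unfold chi; split_ifs <;> simp

theorem chi_meas : Measurable chi := by
  unfold chi
  exact Measurable.ite (measurableSet_lt measurable_fract measurable_const) measurable_const
    measurable_const

/-- The wave with wave length `1 / (n + 1)` travelling with speed `2`. -/
noncomputable def c (n : ℕ) (z : ℝ × ℝ) : ℝ := chi ((n + 1) * (z.1 - 2 * z.2))

theorem c_cases (n : ℕ) (z : ℝ × ℝ) : c n z = 0 ∨ c n z = 1 := chi_cases _

theorem c_meas (n : ℕ) : Measurable (c n) := by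
  unfold c
  exact chi_meas.comp (by fun_prop)

theorem c_bdd (n : ℕ) (z : ℝ × ℝ) : ‖c n z‖ ≤ 1 := by
  rcases c_cases n z with h | h <;> simp [h]

theorem c_line (n : ℕ) (z : ℝ × ℝ) (s : ℝ) : c n (z + s • ((2 : ℝ), (1 : ℝ))) = c n z := by
  unfold c
  congr 1
  simp only [Prod.fst_add, Prod.snd_add, Prod.smul_fst, Prod.smul_snd, smul_eq_mul]
  ring

theorem int_dir {f : ℝ × ℝ → ℝ} (hf : Measurable f) (hb : ∀ z, ‖f z‖ ≤ 1) {v : ℝ × ℝ}
    (hl : ∀ (z : ℝ × ℝ) (s : ℝ), f (z + s • v) = f z) {φ : ℝ × ℝ → ℝ}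
    (hφ : ContDiff ℝ ((⊤ : ℕ∞) : WithTop ℕ∞) φ) (hc : HasCompactSupport φ) :
    Integrable (fun z => f z * fderiv ℝ φ z v) ∧ ∫ z, f z * fderiv ℝ φ z v = 0 := by
  have h1 : Continuous (fun z => fderiv ℝ φ z v) :=
    (hφ.continuous_fderiv (by simp)).clm_apply continuous_const
  have h2 : HasCompactSupport (fun z => fderiv ℝ φ z v) := by
    refine (hc.fderiv (𝕜 := ℝ)).comp_left (g := fun L : (ℝ × ℝ) →L[ℝ] ℝ => L v) ?_
    simp
  have h3 : Integrable (fun z => fderiv ℝ φ z v) := h1.integrable_of_hasCompactSupport h2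
  have h4 : Integrable φ := hφ.continuous.integrable_of_hasCompactSupport hc
  have i1 : Integrable (fun z => f z * fderiv ℝ φ z v) :=
    h3.bdd_mul hf.aestronglyMeasurable (ae_of_all _ hb)
  have i2 : Integrable (fun z => f z * φ z) :=
    h4.bdd_mul hf.aestronglyMeasurable (ae_of_all _ hb)
  refine ⟨i1, ?_⟩
  have key := integral_bilinear_hasLineDerivAt_right_eq_neg_left_of_integrable
    (μ := (volume : Measure (ℝ × ℝ))) (f := f) (f' := fun _ => (0 : ℝ)) (g := φ)
    (g' := fun z => fderiv ℝ φ z v) (v := v) (B := ContinuousLinearMap.mul ℝ ℝ)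
    (by simp) (by simpa using i1) (by simpa using i2)
    (by
      intro z _
      unfold HasLineDerivAt
      have : (fun t : ℝ => f (z + t • v)) = fun _ => f z := by
        funext t; exact hl z t
      rw [this]
      exact hasDerivAt_const _ _)
    (by
      intro z _
      exact ((hφ.differentiable (by simp)) z).hasFDerivAt.hasLineDerivAt v)
  simpa using key

theorem translate {g : ℝ × ℝ → ℝ} (hg : Integrable g) {h : ℕ → ℝ × ℝ}
    (hh : Tendsto h atTop (𝓝 0)) :
    Tendsto (fun n => ∫ z, |g z - g (h n + z)|) atTop (𝓝 0) := by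
  have hm : MemLp g 1 (volume : Measure (ℝ × ℝ)) := memLp_one_iff_integrable.mpr hg
  have : Fact ((1 : ENNReal) ≠ ⊤) := ⟨by simp⟩
  have key : Tendsto (fun n => DomAddAct.mk (h n) +ᵥ hm.toLp g) atTop (𝓝 (hm.toLp g)) := by
    have h1 : Continuous (fun x : (ℝ × ℝ)ᵈᵃᵃ => x +ᵥ hm.toLp g) := by fun_prop
    have h2 : Tendsto (fun n => DomAddAct.mk (h n)) atTop (𝓝 (0 : (ℝ × ℝ)ᵈᵃᵃ)) := by
      have := (DomAddAct.continuous_mk (M := ℝ × ℝ)).tendsto 0
      exact this.comp hh
    have h3 := (h1.tendsto 0).comp h2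
    rw [zero_vadd] at h3
    exact h3
  have h4 := (tendsto_iff_norm_sub_tendsto_zero).mp key
  refine h4.congr fun n => ?_
  rw [DomAddAct.mk_vadd_toLp, ← MemLp.toLp_sub, Lp.norm_toLp, eLpNorm_one_eq_lintegral_enorm]
  rw [← integral_norm_eq_lintegral_enorm]
  · refine integral_congr_ae (ae_of_all _ fun z => ?_)
    simp only [Pi.sub_apply, Real.norm_eq_abs, vadd_eq_add]
    rw [abs_sub_comm]
  · have := (hm.comp_measurePreserving (measurePreserving_vadd (h n) (volume : Measure (ℝ × ℝ)))).sub hm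
    exact this.1

theorem weak {g : ℝ × ℝ → ℝ} (hg : Integrable g) :
    Tendsto (fun n => ∫ z, c n z * g z) atTop (𝓝 ((1 / 2) * ∫ z, g z)) := by
  set h : ℕ → ℝ × ℝ := fun n => (1 / (2 * ((n : ℝ) + 1)), 0) with hh
  have hlim : Tendsto h atTop (𝓝 0) := by
    have h1 : Tendsto (fun n : ℕ => 1 / (2 * ((n : ℝ) + 1))) atTop (𝓝 0) := by
      have := tendsto_one_div_add_atTop_nhds_zero_nat (𝕜 := ℝ)
      have h2 := this.const_mul (1 / 2)
      simp only [mul_zero] at h2
      refine h2.congr fun n => ?_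
      field_simp
    exact (Prod.tendsto_iff _ _).mpr ⟨h1, tendsto_const_nhds⟩
  have ht := translate hg hlim
  have hi : ∀ n, Integrable (fun z => c n z * g z) := fun n =>
    hg.bdd_mul (c_meas n).aestronglyMeasurable (ae_of_all _ (c_bdd n))
  have hgs : ∀ n, Integrable (fun z => g (h n + z)) := fun n => hg.comp_add_left (h n)
  have his : ∀ n, Integrable (fun z => c n z * g (h n + z)) := fun n =>
    (hgs n).bdd_mul (c_meas n).aestronglyMeasurable (ae_of_all _ (c_bdd n))
  have e1 : ∀ n, ∫ z, c n z * g z = ∫ z, (1 - c n z) * g (h n + z) := by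
    intro n
    have := integral_add_left_eq_self (μ := (volume : Measure (ℝ × ℝ)))
      (fun z => c n z * g z) (h n)
    rw [← this]
    refine integral_congr_ae (ae_of_all _ fun z => ?_)
    simp only
    congr 1
    unfold c
    rw [← chi_half]
    congr 1
    have : ((n : ℝ) + 1) ≠ 0 := by positivity
    simp only [hh, Prod.fst_add, Prod.snd_add]
    field_simp
    ring
  have e2 : ∀ n, (∫ z, c n z * g z) - (1 / 2) * ∫ z, g z
      = (1 / 2) * ∫ z, c n z * (g z - g (h n + z)) := by
    intro n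
    have a1 : ∫ z, (1 - c n z) * g (h n + z) = (∫ z, g z) - ∫ z, c n z * g (h n + z) := by
      have : ∀ z, (1 - c n z) * g (h n + z) = g (h n + z) - c n z * g (h n + z) := fun z => by ring
      simp_rw [this]
      rw [integral_sub (hgs n) (his n), integral_add_left_eq_self]
    have a2 : ∫ z, c n z * (g z - g (h n + z)) = (∫ z, c n z * g z) - ∫ z, c n z * g (h n + z) := by
      have : ∀ z, c n z * (g z - g (h n + z)) = c n z * g z - c n z * g (h n + z) := fun z => by ring
      simp_rw [this]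
      rw [integral_sub (hi n) (his n)]
    have a3 := e1 n
    rw [a2]
    linarith
  rw [tendsto_iff_norm_sub_tendsto_zero]
  refine squeeze_zero (fun n => norm_nonneg _) (fun n => ?_) ht
  rw [e2 n]
  have b1 : ‖∫ z, c n z * (g z - g (h n + z))‖ ≤ ∫ z, |g z - g (h n + z)| := by
    refine (norm_integral_le_integral_norm _).trans ?_
    refine integral_mono_of_nonneg (ae_of_all _ fun z => norm_nonneg _) ?_ (ae_of_all _ fun z => ?_)
    · exact (hg.sub (hgs n)).abs
    · simp only [norm_mul]
      calc ‖c n z‖ * ‖g z - g (h n + z)‖ ≤ 1 * ‖g z - g (h n + z)‖ :=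
            mul_le_mul_of_nonneg_right (c_bdd n z) (norm_nonneg _)
        _ = |g z - g (h n + z)| := by rw [one_mul, Real.norm_eq_abs]
  rw [norm_mul]
  have b2 : ‖(1 / 2 : ℝ)‖ ≤ 1 := by norm_num
  calc ‖(1 / 2 : ℝ)‖ * ‖∫ z, c n z * (g z - g (h n + z))‖
      ≤ 1 * ‖∫ z, c n z * (g z - g (h n + z))‖ := mul_le_mul_of_nonneg_right b2 (norm_nonneg _)
    _ ≤ _ := by rw [one_mul]; exact b1

end Pool.Agent.N263.Wave
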